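import Pool.Agent.Lib.MP_17a322_ntTA.E0
import Pool.Agent.Lib.MP_17a322_ntTB.D3
import Pool.Agent.Lib.MP_17a322_ntTD.V3

/-!
Divisors in any position: the divisors through a point are covered by subfamilies which meet properly.
-/

set_option autoImplicit false

universe u

namespace UTG

open MvPolynomial UTA UTC UTD
open Pool.Agent.Lib.MP_17a322_nt.VA Pool.Agent.Lib.MP_17a322_nt.SL

/-- The `D_i`, `i ∈ I`, have a common point on the generic fibre. -/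
def Conc {K : Type u} [Field K] {N q m κ : ℕ} (A : AV K N) (H : Fin κ → Fm K N q m) (I : Finset (Fin q)) : Prop :=
  ∃ (L : Type u) (_ : Field L) (_ : IsAlgClosed L) (_ : Algebra K L) (P : A.Pts L) (y : Fin q → Fin (m + 1) → L),
    Gen A P ∧ InX H (A.x P) y ∧ ∀ i ∈ I, y i 0 = 0

/-- For all `D_i`, `i ∈ I`, with a common point on the generic fibre there are `a` subfamilies which meet properly
such that every `i ∈ I` is in at least `b` of them. -/
def Cov {K : Type u} [Field K] {N q m κ : ℕ} (a b : ℕ) (A : AV K N) (H : Fin κ → Fm K N q m) : Prop :=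
  ∀ I : Finset (Fin q), Conc A H I → ∃ Q : Fin a → Finset (Fin q), (∀ k, Vars A H (Q k)) ∧
    ∀ i ∈ I, b ≤ (Finset.univ.filter fun k => i ∈ Q k).card

private theorem G1_fac {K : Type u} [Field K] {N : ℕ} {S : Type} [Fintype S] [DecidableEq S] (ρ : S → ℕ)
    (R : S → MvPolynomial (Fin (N + 1)) K) (hR : ∀ s, (R s).IsHomogeneous (ρ s)) (v : AbsoluteValue K ℝ) (s : S) :
    ∃ C : ℝ, 0 ≤ C ∧ ∀ x : Fin (N + 1) → K, x ≠ 0 → aeval x (∏ t, R t) ≠ 0 →
      LR (ρ s) (R s) v x ≤ LR (∑ t, ρ t) (∏ t, R t) v x + C := by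
  have h1 : (∏ t ∈ Finset.univ.erase s, R t).IsHomogeneous (∑ t ∈ Finset.univ.erase s, ρ t) :=
    IsHomogeneous.prod _ _ _ fun t _ => hR t
  obtain ⟨C, hC0, hC⟩ := E0_LR_ge h1 v
  refine ⟨C, hC0, fun x hx hne => ?_⟩
  have e1 : ∏ t, R t = R s * ∏ t ∈ Finset.univ.erase s, R t := (Finset.mul_prod_erase _ _ (Finset.mem_univ s)).symm
  have e2 : ∑ t, ρ t = ρ s + ∑ t ∈ Finset.univ.erase s, ρ t := (Finset.add_sum_erase _ _ (Finset.mem_univ s)).symm
  rw [e1, map_mul] at hne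
  have h2 := left_ne_zero_of_mul hne
  have h3 := right_ne_zero_of_mul hne
  rw [e1, e2, E0_LR_mul _ _ _ _ v x h2 h3]
  have h4 := hC x hx h3
  linarith

/-- The divisors without common point are not all close, up to a vertical divisor. -/
private theorem G1_vert {K : Type u} [Field K] {N q m κ : ℕ} (A : AV K N) (H : Fin κ → Fm K N q m)
    (hH : ∀ j, ∃ a d, Mh (H j) a d) {ρB : ℕ} {RB : MvPolynomial (Fin (N + 1)) K} (hRB : RB.IsHomogeneous ρB)
    (hRB2 : RB ∉ A.I) :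
    ∃ (R : MvPolynomial (Fin (N + 1)) K) (d : ℕ), R.IsHomogeneous d ∧ R ∉ A.I ∧
      (∀ x : Fin (N + 1) → K, aeval x R ≠ 0 → aeval x RB ≠ 0) ∧
      ∀ v : AbsoluteValue K ℝ, ∃ C : ℝ, 0 ≤ C ∧ ∀ (P : A.Pts K) (y : Fin q → Fin (m + 1) → K),
        InX H (A.x P) y → aeval (A.x P) R ≠ 0 → (∀ i, y i 0 ≠ 0) →
        0 ≤ LR d R v (A.x P) + C ∧ LR ρB RB v (A.x P) ≤ LR d R v (A.x P) + C ∧
        ∀ I : Finset (Fin q), ¬ Conc A H I → ∃ i ∈ I, lam v (y i) ≤ LR d R v (A.x P) + C := by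
  classical
  have hpr := Z_prime A
  have hfar : ∀ I : Finset (Fin q), ∃ (R : MvPolynomial (Fin (N + 1)) K) (ρ : ℕ), R.IsHomogeneous ρ ∧ R ∉ A.I ∧
      ∀ v : AbsoluteValue K ℝ, ∃ C : ℝ, 0 ≤ C ∧ ∀ (P : A.Pts K) (y : Fin q → Fin (m + 1) → K),
        InX H (A.x P) y → aeval (A.x P) R ≠ 0 → (∀ i, y i 0 ≠ 0) → ¬ Conc A H I →
        ∃ i ∈ I, lam v (y i) ≤ LR ρ R v (A.x P) + C := by
    intro I
    by_cases hI : Conc A H I
    · refine ⟨1, 0, isHomogeneous_one _ _, fun h => hpr.ne_top ((Ideal.eq_top_iff_one _).2 h), fun v => ⟨0, le_rfl, ?_⟩⟩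
      intro P y _ _ _ h
      exact absurd hI h
    · obtain ⟨R, ρ, h1, h2, h3⟩ := UTB.D3_far A H hH (fun j : Fin I.card => (I.equivFin.symm j : Fin q))
        fun L _ _ _ P hP y hy => by
          by_contra hcon
          push Not at hcon
          refine hI ⟨L, inferInstance, inferInstance, inferInstance, P, y, hP, hy, fun i hi => ?_⟩
          have h4 := hcon (I.equivFin ⟨i, hi⟩)
          rwa [Equiv.symm_apply_apply] at h4
      refine ⟨R, ρ, h1, h2, fun v => ?_⟩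
      obtain ⟨C, hC0, hC⟩ := h3 v
      refine ⟨C, hC0, fun P y a1 a2 a3 _ => ?_⟩
      obtain ⟨j, hj⟩ := hC P y a1 a2 a3
      exact ⟨_, (I.equivFin.symm j).2, hj⟩
  choose Rm ρm hm1 hm2 hm3 using hfar
  let Rs : Option (Finset (Fin q)) → MvPolynomial (Fin (N + 1)) K := fun s => s.elim RB Rm
  let ρs : Option (Finset (Fin q)) → ℕ := fun s => s.elim ρB ρm
  have hRs : ∀ s, (Rs s).IsHomogeneous (ρs s) := by
    rintro (_ | σ)
    · exact hRB
    · exact hm1 σ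
  have hRs2 : ∀ s, Rs s ∉ A.I := by
    rintro (_ | σ)
    · exact hRB2
    · exact hm2 σ
  refine ⟨∏ s, Rs s, ∑ s, ρs s, IsHomogeneous.prod _ _ _ fun s _ => hRs s, ?_, ?_, fun v => ?_⟩
  · intro h
    obtain ⟨s, -, hs⟩ := (hpr.prod_mem_iff).1 h
    exact hRs2 s hs
  · intro x hx
    rw [map_prod] at hx
    exact Finset.prod_ne_zero_iff.1 hx none (Finset.mem_univ _)
  · obtain ⟨C0, hC00, hC0⟩ := E0_LR_ge (IsHomogeneous.prod Finset.univ Rs ρs fun s _ => hRs s) v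
    choose Cf hCf0 hCf using G1_fac ρs Rs hRs v
    choose Cm hCm0 hCm using fun σ => hm3 σ v
    have s1 : ∀ s, Cf s ≤ ∑ s, Cf s := fun s =>
      Finset.single_le_sum (f := Cf) (fun t _ => hCf0 t) (Finset.mem_univ s)
    have s3 : ∀ σ, Cm σ ≤ ∑ σ, Cm σ := fun σ =>
      Finset.single_le_sum (f := Cm) (fun t _ => hCm0 t) (Finset.mem_univ σ)
    have t1 : 0 ≤ ∑ s, Cf s := Finset.sum_nonneg fun s _ => hCf0 s
    have t3 : 0 ≤ ∑ σ, Cm σ := Finset.sum_nonneg fun s _ => hCm0 s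
    refine ⟨C0 + ∑ s, Cf s + ∑ σ, Cm σ, by linarith, fun P y hy hne hy0 => ?_⟩
    obtain ⟨b, hb⟩ := A.exists_x_ne P
    have hx0 : A.x P ≠ 0 := fun h => hb (congrFun h b)
    have hs0 : ∀ s, aeval (A.x P) (Rs s) ≠ 0 := by
      intro s
      have h1 := hne
      rw [map_prod] at h1
      exact Finset.prod_ne_zero_iff.1 h1 s (Finset.mem_univ _)
    have u0 := hC0 (A.x P) hx0 hne
    refine ⟨by linarith, ?_, fun I hI => ?_⟩
    · have u2 : LR ρB RB v (A.x P) ≤ _ := hCf none (A.x P) hx0 hne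
      have u3 := s1 none
      linarith
    · obtain ⟨i, hi, u1⟩ := hCm I P y hy (hs0 (some I)) hy0 hI
      refine ⟨i, hi, ?_⟩
      have u2 : LR (ρm I) (Rm I) v (A.x P) ≤ _ := hCf (some I) (A.x P) hx0 hne
      have u3 := s1 (some I)
      have u4 := s3 I
      linarith

/-- One of `a` subfamilies carries the part `b / a` of the sum. -/
private theorem G1_avg {q a b : ℕ} (ha : 0 < a) (ω l : Fin q → ℝ) (hω : ∀ i, 0 ≤ ω i) (hl : ∀ i, 0 ≤ l i) {L : ℝ}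
    (hL : 0 ≤ L) (Q : Fin a → Finset (Fin q))
    (h : ∀ i, L < l i → b ≤ (Finset.univ.filter fun k => i ∈ Q k).card) :
    ∃ k, (b : ℝ) / a * ∑ i, ω i * l i ≤ ∑ i, (if i ∈ Q k then ω i else 0) * l i + (b : ℝ) / a * (∑ i, ω i) * L := by
  have ha' : (0 : ℝ) < a := by exact_mod_cast ha
  by_contra hcon
  push Not at hcon
  have h1 : ∑ k : Fin a, (∑ i, (if i ∈ Q k then ω i else 0) * l i + (b : ℝ) / a * (∑ i, ω i) * L) <
      ∑ _k : Fin a, (b : ℝ) / a * ∑ i, ω i * l i :=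
    Finset.sum_lt_sum_of_nonempty ⟨⟨0, ha⟩, Finset.mem_univ _⟩ fun k _ => hcon k
  rw [Finset.sum_add_distrib, Finset.sum_const, Finset.sum_const, Finset.card_univ, Fintype.card_fin,
    nsmul_eq_mul, nsmul_eq_mul, Finset.sum_comm] at h1
  have e1 : (a : ℝ) * ((b : ℝ) / a * (∑ i, ω i) * L) = b * ∑ i, ω i * L := by
    rw [← Finset.sum_mul]
    field_simp
  have e2 : (a : ℝ) * ((b : ℝ) / a * ∑ i, ω i * l i) = b * ∑ i, ω i * l i := by
    field_simp
  rw [e1, e2] at h1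
  have h2 : (b : ℝ) * ∑ i, ω i * l i ≤
      ∑ i, (∑ k : Fin a, (if i ∈ Q k then ω i else 0) * l i) + b * ∑ i, ω i * L := by
    rw [Finset.mul_sum, Finset.mul_sum, ← Finset.sum_add_distrib]
    refine Finset.sum_le_sum fun i _ => ?_
    have e3 : ∑ k : Fin a, (if i ∈ Q k then ω i else 0) * l i =
        ((Finset.univ.filter fun k => i ∈ Q k).card : ℝ) * (ω i * l i) := by
      rw [← Finset.sum_mul, ← Finset.sum_filter, Finset.sum_const, nsmul_eq_mul, mul_assoc]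
    rw [e3]
    have h3 : 0 ≤ ω i * l i := mul_nonneg (hω i) (hl i)
    rcases lt_or_ge L (l i) with h4 | h4
    · have h5 : (b : ℝ) ≤ ((Finset.univ.filter fun k => i ∈ Q k).card : ℝ) := by exact_mod_cast h i h4
      have h6 := mul_le_mul_of_nonneg_right h5 h3
      have h7 : 0 ≤ (b : ℝ) * (ω i * L) := mul_nonneg (Nat.cast_nonneg _) (mul_nonneg (hω i) hL)
      linarith
    · have h5 : (b : ℝ) * (ω i * l i) ≤ b * (ω i * L) :=
        mul_le_mul_of_nonneg_left (mul_le_mul_of_nonneg_left h4 (hω i)) (Nat.cast_nonneg _)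
      have h6 : 0 ≤ ((Finset.univ.filter fun k => i ∈ Q k).card : ℝ) * (ω i * l i) :=
        mul_nonneg (Nat.cast_nonneg _) h3
      linarith
  linarith

/-- The estimates for the subfamilies which meet properly give the estimate for all the divisors. -/
theorem G1_est {K : Type u} [Field K] {N q m κ s₀ : ℕ} (A : AV K N) (H : Fin κ → Fm K N q m)
    (hH : ∀ j, ∃ a d, Mh (H j) a d) {a b : ℕ} (ha : 0 < a) (hcov : Cov a b A H)
    {Q : Fin s₀ → Finset (Fin q)} (hQ : ∀ Q', Vars A H Q' → ∃ k, Q k = Q') {M : Fin q → ℕ} {r : ℕ}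
    {ω : Fin q → ℝ} (hω : ∀ i, 0 ≤ ω i) (E : EstV A H M r fun k i => if i ∈ Q k then ω i else 0) :
    Nonempty (EstG A H M r fun i => (b : ℝ) / a * ω i) := by
  classical
  obtain ⟨R, d, hR, hR2, hR3, hv⟩ := G1_vert A H hH E.R_hom E.R_not
  obtain ⟨T₁, hT₁⟩ := exists_nat_ge ((r : ℝ) * ((b : ℝ) / a * ∑ i, ω i))
  refine ⟨{
    mon := E.mon
    deg := E.deg
    ind := E.ind
    s := E.s
    D := E.D
    Λ := E.Λ
    Λ_hom := E.Λ_hom
    Λ_det := E.Λ_det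
    d := d
    R := R
    R_hom := hR
    R_not := hR2
    T := E.T + T₁
    loc := ?_ }⟩
  intro v
  obtain ⟨C₁, hC₁⟩ := E.loc v
  obtain ⟨C₂, hC₂, hv2⟩ := hv v
  refine ⟨(E.T + T₁) * C₂ + C₁, fun P y hy hR0 hy0 => ?_⟩
  obtain ⟨h1, h2, h3⟩ := hv2 P y hy hR0 hy0
  obtain ⟨L, hL⟩ : ∃ L : ℝ, L = LR d R v (A.x P) + C₂ := ⟨_, rfl⟩
  have hl : ∀ i, 0 ≤ lam v (y i) := fun i => E0_lam v (y i) (hy0 i)
  have hconc : Conc A H (Finset.univ.filter fun i => L < lam v (y i)) := by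
    by_contra hcon
    obtain ⟨i, hi, hi2⟩ := h3 _ hcon
    rw [← hL] at hi2
    exact absurd (Finset.mem_filter.1 hi).2 (not_lt.2 hi2)
  obtain ⟨Q', hQ'1, hQ'2⟩ := hcov _ hconc
  obtain ⟨k, hk⟩ := G1_avg ha ω (fun i => lam v (y i)) hω hl (L := L) (by rw [hL]; exact h1) Q' fun i hi =>
    hQ'2 i (Finset.mem_filter.2 ⟨Finset.mem_univ i, hi⟩)
  obtain ⟨k', hk'⟩ := hQ _ (hQ'1 k)
  obtain ⟨c, hc⟩ := hC₁ P y hy (hR3 _ hR0) hy0 k'
  refine ⟨c, fun hne => ?_⟩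
  have h4 := hc hne
  rw [← hk'] at hk
  have e1 : (r : ℝ) * ∑ i, (b : ℝ) / a * ω i * lam v (y i) = r * ((b : ℝ) / a * ∑ i, ω i * lam v (y i)) := by
    rw [Finset.mul_sum (s := Finset.univ) (f := fun i => ω i * lam v (y i))]
    congr 1
    exact Finset.sum_congr rfl fun i _ => mul_assoc _ _ _
  have h5 := mul_le_mul_of_nonneg_left hk (Nat.cast_nonneg r : (0 : ℝ) ≤ r)
  have hL0 : 0 ≤ L := by
    rw [hL]
    exact h1
  have h6 : (r : ℝ) * ((b : ℝ) / a * (∑ i, ω i) * L) ≤ T₁ * L := by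
    rw [← mul_assoc]
    exact mul_le_mul_of_nonneg_right hT₁ hL0
  have h7 : (E.T : ℝ) * LR E.d E.R v (A.x P) ≤ E.T * L := by
    rw [hL]
    exact mul_le_mul_of_nonneg_left h2 (Nat.cast_nonneg _)
  have e2 : ((E.T + T₁ : ℕ) : ℝ) * LR d R v (A.x P) + ((E.T + T₁) * C₂ + C₁) = E.T * L + T₁ * L + C₁ := by
    rw [hL]
    push_cast
    ring
  rw [e1, add_assoc, e2]
  linarith

end UTG
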