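import Pool.Agent.Lib.MP_17a322_ntTB.H5
import Pool.Agent.Lib.MP_17a322_ntTC.H4
import Pool.Agent.Lib.MP_17a322_ntTC.K3
import Pool.Agent.Lib.MP_17a322_ntTC.K9
import Pool.Agent.Lib.MP_17a322_ntTD.V3
import Pool.Agent.Lib.MP_17a322_ntTQ.G
import Pool.Agent.Lib.MP_17a322_ntTQ.P
import Pool.Agent.Lib.MP_17a322_ntTQ.Q1
import Pool.Agent.Lib.MP_17a322_ntTQ.K3

/-!
The estimates for several properly meeting subfamilies of the `D_i` at once, with multidegrees `M` whose proportions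
converge to fixed weights (`K10_all` and `K10_plus` for a family).
-/

set_option autoImplicit false

universe u

namespace UTG

open MvPolynomial UTA UTD UTC UTQ
open Pool.Agent.Lib.MP_17a322_nt.VA Pool.Agent.Lib.MP_17a322_nt.SL

/-- A chain for all the `D_i` is a chain for a subfamily. -/
def K10c_sub {k : Type u} [Field k] {q m κ : ℕ} {h : Fin κ → MvPolynomial (Fin q × Fin (m + 1)) k}
    {M W : Fin q → ℕ} (C : ChainQ h Finset.univ M W) (Q : Finset (Fin q)) : ChainQ h Q M W where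
  J := C.J
  G := C.G
  G_zero := C.G_zero
  G_dvd := fun lam i _ => C.G_dvd lam i (Finset.mem_univ i)
  W_le := fun lam i _ => C.W_le lam i (Finset.mem_univ i)

/-- One grid for all the subfamilies. -/
theorem K10c_grid {q s₀ : ℕ} (Q : Fin s₀ → Finset (Fin q)) (W : Fin q → ℕ) (η : ℝ) (hη : 0 < η) :
    ∃ B : ℕ, ∀ k, ∀ lam : Fin q → ℝ, (∀ i, 0 ≤ lam i) → ∃ (t : Fin q → Fin (B + 1)) (Δ : ℝ), 0 ≤ Δ ∧
      (∀ i ∈ Q k, (t i : ℝ) * Δ ≤ lam i) ∧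
      ∑ i ∈ Q k, ((W i : ℝ) - η) * lam i ≤ Δ * ((∑ i ∈ Q k, (t i : ℕ) * W i : ℕ) : ℝ) := by
  choose B hB using fun k => K9_grid (Q k) W η hη
  refine ⟨∑ k, B k, fun k lam hlam => ?_⟩
  obtain ⟨t, Δ, h1, h2, h3⟩ := hB k lam hlam
  have hle : B k ≤ ∑ k, B k := Finset.single_le_sum (f := B) (fun _ _ => Nat.zero_le _) (Finset.mem_univ k)
  exact ⟨fun i => Fin.castLE (Nat.succ_le_succ hle) (t i), Δ, h1, h2, h3⟩

theorem K10c_all {K : Type u} [Field K] [CharZero K] {N q m κ n : ℕ} (hq : 0 < q) (hn : 0 < n) (A : AV K N)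
    (H : Fin κ → Fm K N q m) (hX : Vars A H ∅) (hD : Dim n A H)
    (hz : ∀ (L : Type u) [Field L] [IsAlgClosed L] [Algebra K L] (P : A.Pts L), Gen A P →
      ∀ i, ∃ y, InX H (A.x P) y ∧ y i 0 ≠ 0)
    {s₀ : ℕ} (Q : Fin s₀ → Finset (Fin q)) (hQ : ∀ k, Vars A H (Q k)) :
    ∃ w : Fin q → ℝ, (∀ i, 0 < w i) ∧ ∑ i, w i = 1 ∧ ∀ η : ℝ, 0 < η →
      ∃ (M : Fin q → ℕ) (r : ℕ) (ω : Fin q → ℝ), 0 < r ∧ (∀ i, |(M i : ℝ) / ∑ l, (M l : ℝ) - w i| ≤ η) ∧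
        (∀ i, ((q : ℝ) / (2 * n) - η) * M i ≤ ω i) ∧
        Nonempty (EstV A H M r fun k i => if i ∈ Q k then ω i else 0) := by
  classical
  obtain ⟨Ω, i1, i2, i3, P₀, hP₀⟩ := Pool.Agent.Lib.MP_17a322_nt.EF.T_gen A
  have hx : A.x P₀ ≠ 0 := A.x_ne P₀
  obtain ⟨h, hh, hI, hZ⟩ := C4_down H hX.hom hx
  have hp : (IΩ h Ω).IsPrime := by
    rw [hI]
    exact hX.prime Ω P₀ hP₀
  have hnz : ∀ i, ∃ y : Fin q → Fin (m + 1) → Ω, InZ h y ∧ y i 0 ≠ 0 := fun i => by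
    obtain ⟨y, hy, hy0⟩ := hz Ω P₀ hP₀ i
    exact ⟨y, (hZ y).2 hy, hy0⟩
  have hk : (Ik h).IsPrime := B1_prime h hp
  have h0 : ∀ i, (X (i, 0) : MvPolynomial (Fin q × Fin (m + 1)) (kx K (A.x P₀))) ∉ Ik h :=
    fun i => UTB.H5_X Ω i (hnz i)
  have lo0 : ∀ (M : Fin q → ℕ) (l : Fin q), (M l) ^ n ≤ n.factorial * hf (Ik h) M := fun M l =>
    UTB.H5_lo Ω hp (by
      rw [hI]
      exact hD.big Ω P₀ hP₀) hnz M l
  obtain ⟨C, hC⟩ := UTB.H5_up (n := n) hh Ω (by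
    obtain ⟨d, hd, f, hf1, hf2⟩ := hD.le Ω P₀ hP₀
    exact ⟨d, hd, f, hf1, fun y hy => hf2 y ((hZ y).1 hy)⟩)
  have hnf : (0 : ℝ) < n.factorial := by exact_mod_cast Nat.factorial_pos n
  obtain ⟨w, hw, hw1, hN⟩ := H4_weights hq hn (fun N => hf (Ik h) N) (1 / n.factorial) C (by positivity)
    (fun N _ l => by
      have h1 : ((N l : ℕ) : ℝ) ^ n ≤ n.factorial * (hf (Ik h) N : ℝ) := by exact_mod_cast lo0 N l
      rw [div_mul_eq_mul_div, one_mul, div_le_iff₀ hnf, mul_comm (_ : ℝ) (n.factorial : ℝ)]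
      exact h1)
    hC
  refine ⟨w, hw, hw1, fun η hη => ?_⟩
  have hqR : (0 : ℝ) < q := by exact_mod_cast hq
  have hnR : (0 : ℝ) < n := by exact_mod_cast hn
  obtain ⟨B₀, ε', hε', hJ⟩ := J8_W hq hn (η * n / q) (by positivity)
  obtain ⟨M, hMB, hMw, hMd⟩ := hN (min ε' η) (lt_min hε' hη) (max B₀ 1)
  have hM1 : ∀ i, 1 ≤ M i := fun i => le_trans (le_max_right _ _) (hMB i)
  obtain ⟨r, hr⟩ : ∃ r, r = hf (Ik h) M := ⟨_, rfl⟩
  have hr0 : 0 < r := by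
    rw [hr]
    have h1 := lo0 M ⟨0, hq⟩
    have h2 : 0 < (M ⟨0, hq⟩) ^ n := pow_pos (hM1 _) n
    exact Nat.pos_of_mul_pos_left (lt_of_lt_of_le h2 h1)
  obtain ⟨δ, hδ⟩ : ∃ δ : Fin q → ℕ, ∀ i, δ i = hf (Ik h) M - hf (Ik h) (M - Pi.single i 1) := ⟨_, fun _ => rfl⟩
  obtain ⟨W, ⟨Ch⟩, hW⟩ := K3_chain hk h0 M δ (r + q * ∑ i, M i) hM1 (fun i => by
    rw [hδ]
    omega)
  obtain ⟨B, hB⟩ := K10c_grid Q W (η / 2) (by positivity)
  obtain ⟨β⟩ := V2_bas A H hX.hom P₀ hP₀ Q (fun k => (hQ k).reg Ω P₀ hP₀) h hh hI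
    (fun k => K10c_sub Ch (Q k)) B
  rw [← hr] at β
  refine ⟨M, r, fun i => ((W i : ℝ) - η / 2) / r, hr0, fun i => (hMw i).trans (min_le_right _ _), fun i => ?_, V3_est hr0 β (η / 2) hB⟩
  show _ ≤ ((W i : ℝ) - η / 2) / r
  obtain ⟨f, hf1, hf2⟩ := hW i
  have hMs : M i ≤ ∑ i, M i := Finset.single_le_sum (f := M) (fun _ _ => Nat.zero_le _) (Finset.mem_univ i)
  have h1 := hJ (M i) r (δ i) (r + q * ∑ i, M i) f (le_trans (le_max_left _ _) (hMB i)) (Nat.le_add_right _ _)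
    ((Nat.mul_le_mul_left q hMs).trans (Nat.le_add_left _ _)) (fun j => by
      rw [hr]
      exact hf1 j) (by
      have h2 := hMd i
      have h3 : (0 : ℝ) ≤ r := Nat.cast_nonneg r
      have h4 : (1 + min ε' η) * n * (hf (Ik h) M : ℝ) ≤ (1 + ε') * n * r := by
        rw [← hr]
        exact mul_le_mul_of_nonneg_right (mul_le_mul_of_nonneg_right (by linarith [min_le_left ε' η]) hnR.le) h3
      rcases le_total (hf (Ik h) (M - Pi.single i 1)) (hf (Ik h) M) with h5 | h5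
      · rw [hδ, Nat.cast_sub h5]
        exact h2.trans h4
      · rw [hδ, Nat.sub_eq_zero_of_le h5, Nat.cast_zero, mul_zero]
        positivity)
  rw [← hf2] at h1
  have hr1 : (1 : ℝ) ≤ r := by exact_mod_cast hr0
  have hMi : (1 : ℝ) ≤ M i := by exact_mod_cast hM1 i
  have hrp : (0 : ℝ) < r := by linarith
  rw [le_div_iff₀ hrp]
  have h2 : (1 - η * n / q) * (q * r * M i) / (2 * n) = (q : ℝ) / (2 * n) * M i * r - η / 2 * (M i * r) := by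
    field_simp
  have h3 : η / 2 ≤ η / 2 * (M i * r) := by
    have h4 : (1 : ℝ) ≤ M i * r := by nlinarith
    nlinarith
  rw [h2] at h1
  nlinarith

theorem K10c_plus {K : Type u} [Field K] [CharZero K] {N q m κ n : ℕ} (hn : 2 ≤ n) (hq : 2 * n ≤ q) (A : AV K N)
    (H : Fin κ → Fm K N q m) (hX : Vars A H ∅) (hD : Dim n A H)
    (hz : ∀ (L : Type u) [Field L] [IsAlgClosed L] [Algebra K L] (P : A.Pts L), Gen A P →
      ∀ i, ∃ y, InX H (A.x P) y ∧ y i 0 ≠ 0)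
    {s₀ : ℕ} (Q : Fin s₀ → Finset (Fin q)) (hQ : ∀ k, Vars A H (Q k)) :
    ∃ (w : Fin q → ℝ) (c : ℝ), (∀ i, 0 < w i) ∧ ∑ i, w i = 1 ∧ 0 < c ∧ ∀ η : ℝ, 0 < η →
      ∃ (M : Fin q → ℕ) (r : ℕ) (ω : Fin q → ℝ), 0 < r ∧ (∀ i, |(M i : ℝ) / ∑ l, (M l : ℝ) - w i| ≤ η) ∧
        (∀ i, ((q : ℝ) / (2 * n) + c - η) * M i ≤ ω i) ∧
        Nonempty (EstV A H M r fun k i => if i ∈ Q k then ω i else 0) := by
  classical
  have hn0 : 0 < n := by omega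
  have hq0 : 0 < q := by omega
  obtain ⟨Ω, i1, i2, i3, P₀, hP₀⟩ := Pool.Agent.Lib.MP_17a322_nt.EF.T_gen A
  have hx : A.x P₀ ≠ 0 := A.x_ne P₀
  obtain ⟨h, hh, hI, hZ⟩ := C4_down H hX.hom hx
  have hp : (IΩ h Ω).IsPrime := by
    rw [hI]
    exact hX.prime Ω P₀ hP₀
  have hnz : ∀ i, ∃ y : Fin q → Fin (m + 1) → Ω, InZ h y ∧ y i 0 ≠ 0 := fun i => by
    obtain ⟨y, hy, hy0⟩ := hz Ω P₀ hP₀ i
    exact ⟨y, (hZ y).2 hy, hy0⟩
  have hk : (Ik h).IsPrime := B1_prime h hp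
  have h0 : ∀ i, (X (i, 0) : MvPolynomial (Fin q × Fin (m + 1)) (kx K (A.x P₀))) ∉ Ik h :=
    fun i => UTB.H5_X Ω i (hnz i)
  have lo0 : ∀ (M : Fin q → ℕ) (l : Fin q), (M l) ^ n ≤ n.factorial * hf (Ik h) M := fun M l =>
    UTB.H5_lo Ω hp (by
      rw [hI]
      exact hD.big Ω P₀ hP₀) hnz M l
  obtain ⟨C, hC⟩ := UTB.H5_up (n := n) hh Ω (by
    obtain ⟨d, hd, f, hf1, hf2⟩ := hD.le Ω P₀ hP₀
    exact ⟨d, hd, f, hf1, fun y hy => hf2 y ((hZ y).1 hy)⟩)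
  have mono : ∀ (M : Fin q → ℕ) (i : Fin q), hf (Ik h) M ≤ hf (Ik h) (M + Pi.single i 1) := fun M i =>
    UTB.H1_step hk i (h0 i) M
  obtain ⟨D, M₀, hpoly⟩ := Q1_poly hh hk h0
  have hnf : (0 : ℝ) < n.factorial := by exact_mod_cast Nat.factorial_pos n
  obtain ⟨w, hw, hw1, hN⟩ := H4_weights hq0 hn0 (fun N => hf (Ik h) N) (1 / n.factorial) C (by positivity)
    (fun N _ l => by
      have h1 : ((N l : ℕ) : ℝ) ^ n ≤ n.factorial * (hf (Ik h) N : ℝ) := by exact_mod_cast lo0 N l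
      rw [div_mul_eq_mul_div, one_mul, div_le_iff₀ hnf, mul_comm (_ : ℝ) (n.factorial : ℝ)]
      exact h1)
    hC
  obtain ⟨i₀, -, hi₀⟩ := Finset.exists_min_image Finset.univ w ⟨⟨0, hq0⟩, Finset.mem_univ _⟩
  have hqR : (0 : ℝ) < q := by exact_mod_cast hq0
  have hnR : (0 : ℝ) < n := by exact_mod_cast hn0
  have hpos : ∀ M : Fin q → ℕ, (∀ i, 1 ≤ M i) → 0 < hf (Ik h) M := fun M hM => by
    have h1 := lo0 M ⟨0, hq0⟩
    have h2 : 0 < (M ⟨0, hq0⟩) ^ n := pow_pos (hM _) n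
    exact Nat.pos_of_mul_pos_left (lt_of_lt_of_le h2 h1)
  have hC0 : 0 < C := by
    have h1 := hC 1 le_rfl
    have h2 : (0 : ℝ) < (hf (Ik h) fun _ => 1 : ℕ) := by exact_mod_cast hpos (fun _ => 1) fun _ => le_rfl
    rw [Nat.cast_one, one_pow, mul_one] at h1
    linarith
  have hω : 0 < w i₀ := hw i₀
  obtain ⟨c, hc⟩ : ∃ c : ℝ, c = 1 / 8 * (1 / (8 * n)) ^ n / (C * (2 / w i₀) ^ n) := ⟨_, rfl⟩
  have hc0 : 0 < c := by
    rw [hc]
    positivity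
  refine ⟨w, c, hw, hw1, hc0, fun η hη => ?_⟩
  obtain ⟨B₀, ε', hε', hJ⟩ := J8_W hq0 hn0 (η * n / q) (by positivity)
  obtain ⟨ε, hε⟩ : ∃ ε : ℝ, ε = min (min ε' η) (min (w i₀ / 2) 1) := ⟨_, rfl⟩
  have hε0 : 0 < ε := by
    rw [hε]
    exact lt_min (lt_min hε' hη) (lt_min (by positivity) one_pos)
  have hεa : ε ≤ ε' := by rw [hε]; exact (min_le_left _ _).trans (min_le_left _ _)
  have hεb : ε ≤ η := by rw [hε]; exact (min_le_left _ _).trans (min_le_right _ _)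
  have hεc : ε ≤ w i₀ / 2 := by rw [hε]; exact (min_le_right _ _).trans (min_le_left _ _)
  have hεd : ε ≤ 1 := by rw [hε]; exact (min_le_right _ _).trans (min_le_right _ _)
  obtain ⟨M, hMB, hMw, hMd⟩ := hN ε hε0 (max B₀ (max (8 * (M₀ + 1)) (4 * n)))
  have hM8 : ∀ i, 8 * (M₀ + 1) ≤ M i := fun i => ((le_max_left _ _).trans (le_max_right _ _)).trans (hMB i)
  have hM4 : ∀ i, 4 * n ≤ M i := fun i => ((le_max_right _ _).trans (le_max_right _ _)).trans (hMB i)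
  have hM1 : ∀ i, 1 ≤ M i := fun i => by
    have := hM8 i
    omega
  obtain ⟨r, hr⟩ : ∃ r, r = hf (Ik h) M := ⟨_, rfl⟩
  have hr0 : 0 < r := by
    rw [hr]
    exact hpos M hM1
  have hrp : (0 : ℝ) < r := by exact_mod_cast hr0
  obtain ⟨δ, hδ⟩ : ∃ δ : Fin q → ℕ, ∀ i, δ i = hf (Ik h) M - hf (Ik h) (M - Pi.single i 1) := ⟨_, fun _ => rfl⟩
  have hle1 : ∀ i, hf (Ik h) (M - Pi.single i 1) ≤ hf (Ik h) M := fun i =>
    G_mono mono fun l => Nat.sub_le _ _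
  have hδR : ∀ i, (δ i : ℝ) = (hf (Ik h) M : ℝ) - hf (Ik h) (M - Pi.single i 1) := fun i => by
    rw [hδ, Nat.cast_sub (hle1 i)]
  have hδZ : ∀ i, (δ i : ℤ) = (hf (Ik h) M : ℤ) - hf (Ik h) (M - Pi.single i 1) := fun i => by
    rw [hδ, Nat.cast_sub (hle1 i)]
  obtain ⟨W, ⟨Ch⟩, hW⟩ := K3p_chain hk h0 M δ (r + q * ∑ i, M i) hM1 (fun i => by
    rw [hδ]
    omega)
  obtain ⟨B, hB⟩ := K10c_grid Q W (η / 2) (by positivity)
  obtain ⟨β⟩ := V2_bas A H hX.hom P₀ hP₀ Q (fun k => (hQ k).reg Ω P₀ hP₀) h hh hI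
    (fun k => K10c_sub Ch (Q k)) B
  rw [← hr] at β
  refine ⟨M, r, fun i => ((W i : ℝ) - η / 2) / r, hr0, fun i => (hMw i).trans hεb, fun i => ?_, V3_est hr0 β (η / 2) hB⟩
  show _ ≤ ((W i : ℝ) - η / 2) / r
  obtain ⟨f, hf1, hf3, hf2⟩ := hW i
  have hMs : M i ≤ ∑ i, M i := Finset.single_le_sum (f := M) (fun _ _ => Nat.zero_le _) (Finset.mem_univ i)
  have hMsJ : q * M i ≤ r + q * ∑ i, M i := (Nat.mul_le_mul_left q hMs).trans (Nat.le_add_left _ _)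
  have hd : (q : ℝ) * M i * δ i ≤ (1 + ε) * n * r := by
    rw [hδR, hr]
    exact hMd i
  have h1 := hJ (M i) r (δ i) (r + q * ∑ i, M i) (fun j => r - j * δ i) ((le_max_left _ _).trans (hMB i))
    (Nat.le_add_right _ _) hMsJ (fun j => by omega) (hd.trans (by
      have h2 : (1 + ε) * n ≤ (1 + ε') * n := mul_le_mul_of_nonneg_right (by linarith) hnR.le
      exact mul_le_mul_of_nonneg_right h2 hrp.le))
  have hMN : M i ≤ r + q * ∑ i, M i := le_trans (Nat.le_mul_of_pos_left _ hq0) hMsJ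
  have hjd : ∀ j ≤ M i, j * δ i ≤ r := by
    intro j hj
    have h2 : (M i : ℝ) * δ i ≤ r := by
      have h3 : (2 * n : ℝ) ≤ q := by exact_mod_cast hq
      have h4 : (q : ℝ) * M i * δ i ≤ 2 * n * r := hd.trans (by
        have h5 : (1 + ε) * n ≤ 2 * n := mul_le_mul_of_nonneg_right (by linarith) hnR.le
        exact mul_le_mul_of_nonneg_right h5 hrp.le)
      have h5 : (0 : ℝ) ≤ (M i : ℝ) * δ i := by positivity
      have h6 : 2 * n * ((M i : ℝ) * δ i) ≤ 2 * n * r := by nlinarith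
      exact le_of_mul_le_mul_left h6 (by positivity)
    have h3 : M i * δ i ≤ r := by exact_mod_cast h2
    exact (Nat.mul_le_mul_right _ hj).trans h3
  have h2 := P_gain hn0 M₀ (M i) r (δ i) (r + q * ∑ i, M i) f (hM8 i) (hM4 i) hMN hjd (fun j => by
      rw [hr]
      exact hf1 j) (fun s j hs hj => by
    have h3 := gap hn (fun N => hf (Ik h) N) mono lo0 C hC D M₀ hpoly M i (fun l => by
      have := hM8 l
      omega) (by
      have := hM8 i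
      omega) s j hs hj
    have h4 : (hf (Ik h) (M - Pi.single i j) : ℤ) ≤ f j := by exact_mod_cast hf3 j (by omega)
    rw [hδZ, hr]
    refine h3.trans (mul_le_mul_of_nonneg_left ?_ (by positivity))
    linarith)
  have h3 : ((W i : ℕ) : ℝ) = ∑ j ∈ Finset.Icc 1 (r + q * ∑ i, M i), (f j : ℝ) := by
    rw [hf2, Nat.cast_sum]
  rw [Nat.cast_sum] at h1
  -- the upper bound for `r`
  have hS : (0 : ℝ) < ∑ l, (M l : ℝ) := by
    refine Finset.sum_pos (fun l _ => ?_) ⟨i, Finset.mem_univ i⟩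
    exact_mod_cast hM1 l
  have hMi : w i₀ / 2 * ∑ l, (M l : ℝ) ≤ M i := by
    have h4 := (abs_le.1 (hMw i)).1
    have h5 := hi₀ i (Finset.mem_univ i)
    have h6 : w i₀ / 2 ≤ (M i : ℝ) / ∑ l, (M l : ℝ) := by linarith
    rwa [le_div_iff₀ hS] at h6
  have hrC : (r : ℝ) ≤ C * (2 / w i₀) ^ n * (M i : ℝ) ^ n := by
    have h4 : hf (Ik h) M ≤ hf (Ik h) fun _ => ∑ l, M l := G_mono mono fun l =>
      Finset.single_le_sum (f := M) (fun _ _ => Nat.zero_le _) (Finset.mem_univ l)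
    have h5 := hC (∑ l, M l) (le_trans (hM1 i) hMs)
    have h6 : (r : ℝ) ≤ C * ((∑ l, M l : ℕ) : ℝ) ^ n := by
      rw [hr]
      exact le_trans (by exact_mod_cast h4) h5
    refine h6.trans ?_
    rw [mul_assoc, ← mul_pow]
    refine mul_le_mul_of_nonneg_left (pow_le_pow_left₀ (Nat.cast_nonneg _) ?_ n) hC0.le
    rw [Nat.cast_sum]
    have h7 : ∑ l, (M l : ℝ) = 2 / w i₀ * (w i₀ / 2 * ∑ l, (M l : ℝ)) := by
      field_simp
    rw [h7]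
    exact mul_le_mul_of_nonneg_left hMi (by positivity)
  have hgain : c * (M i : ℝ) * r ≤ (M i : ℝ) / 8 * ((M i : ℝ) / (8 * n)) ^ n := by
    have h4 : c * (M i : ℝ) * r ≤ c * (M i : ℝ) * (C * (2 / w i₀) ^ n * (M i : ℝ) ^ n) :=
      mul_le_mul_of_nonneg_left hrC (by positivity)
    refine h4.trans (le_of_eq ?_)
    have h5 : C * (2 / w i₀) ^ n ≠ 0 := by positivity
    have h6 : (8 * (n : ℝ)) ^ n ≠ 0 := by positivity
    rw [hc, div_pow (M i : ℝ), one_div_pow]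
    generalize C * (2 / w i₀) ^ n = Z at h5 ⊢
    generalize (8 * (n : ℝ)) ^ n = Y at h6 ⊢
    field_simp
  have hr1 : (1 : ℝ) ≤ r := by exact_mod_cast hr0
  have hMi1 : (1 : ℝ) ≤ M i := by exact_mod_cast hM1 i
  rw [le_div_iff₀ hrp, h3]
  have h4 : (1 - η * n / q) * (q * r * M i) / (2 * n) = (q : ℝ) / (2 * n) * M i * r - η / 2 * (M i * r) := by
    field_simp
  have h5 : η / 2 ≤ η / 2 * (M i * r) := by
    have h4 : (1 : ℝ) ≤ M i * r := by nlinarith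
    nlinarith
  rw [h4] at h1
  nlinarith

/-- **K10c.** -/
theorem K10c {K : Type u} [Field K] [CharZero K] {N q m κ₀ n : ℕ} (hn : 0 < n) (hq : 0 < q) (A : AV K N)
    (H : Fin κ₀ → Fm K N q m) (hX : Vars A H ∅) (hD : Dim n A H)
    (hz : ∀ (L : Type u) [Field L] [IsAlgClosed L] [Algebra K L] (P : A.Pts L), Gen A P →
      ∀ i, ∃ y, InX H (A.x P) y ∧ y i 0 ≠ 0)
    {s₀ : ℕ} (Q : Fin s₀ → Finset (Fin q)) (hQ : ∀ k, Vars A H (Q k)) :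
    ∃ (w : Fin q → ℝ) (κ : ℝ), (∀ i, 0 < w i) ∧ ∑ i, w i = 1 ∧ (q : ℝ) / (2 * n) ≤ κ ∧
      (2 ≤ n → 2 * n ≤ q → (q : ℝ) / (2 * n) < κ) ∧ ∀ η : ℝ, 0 < η →
      ∃ (M : Fin q → ℕ) (r : ℕ) (ω : Fin q → ℝ), 0 < r ∧ (∀ i, |(M i : ℝ) / ∑ l, (M l : ℝ) - w i| ≤ η) ∧
        (∀ i, (κ - η) * M i ≤ ω i) ∧ Nonempty (EstV A H M r fun k i => if i ∈ Q k then ω i else 0) := by
  by_cases h : 2 ≤ n ∧ 2 * n ≤ q
  · obtain ⟨w, c, hw, hw1, hc, hE⟩ := K10c_plus h.1 h.2 A H hX hD hz Q hQ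
    exact ⟨w, q / (2 * n) + c, hw, hw1, by linarith, fun _ _ => by linarith, hE⟩
  · obtain ⟨w, hw, hw1, hE⟩ := K10c_all hq hn A H hX hD hz Q hQ
    exact ⟨w, q / (2 * n), hw, hw1, le_rfl, fun h1 h2 => absurd ⟨h1, h2⟩ h, hE⟩

end UTG
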