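import Pool.Agent.Lib.MP_17a322_ntTA.Y4
import Pool.Agent.Lib.MP_17a322_ntTC.F1
import Pool.Agent.Lib.MP_17a322_ntTG.G1
import Pool.Agent.Lib.MP_17a322_ntTG.K10c

/-!
T5: divisors in any position.
-/

set_option autoImplicit false

universe u

namespace UTG

open MvPolynomial UTA UTD UTC Height NumberField
open Pool.Agent.Lib.MP_17a322_nt.VA Pool.Agent.Lib.MP_17a322_nt.SL

/-- The constant `κ`. -/
theorem F1_cov {K : Type u} [Field K] [CharZero K] {N q m κ₀ n a b : ℕ} (hn : 0 < n) (hq : 0 < q) (hb : 0 < b)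
    (hba : b ≤ a) (A : AV K N) (H : Fin κ₀ → Fm K N q m) (hX : Vars A H ∅) (hD : Dim n A H) (hC : Cov a b A H) :
    ∃ (w : Fin q → ℝ) (κ : ℝ), (∀ i, 0 < w i) ∧ ∑ i, w i = 1 ∧ (b : ℝ) / a * ((q : ℝ) / (2 * n)) ≤ κ ∧
      (2 ≤ n → 2 * n ≤ q → (b : ℝ) / a * ((q : ℝ) / (2 * n)) < κ) ∧ ∀ η : ℝ, 0 < η →
      ∃ (M : Fin q → ℕ) (r : ℕ) (g : Fin q → ℝ), 0 < r ∧ (∀ i, |(M i : ℝ) / ∑ l, (M l : ℝ) - w i| ≤ η) ∧
        (∀ i, (κ - η) * M i ≤ g i) ∧ Nonempty (EstG A H M r g) := by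
  classical
  have ha : 0 < a := lt_of_lt_of_le hb hba
  have haR : (0 : ℝ) < a := by exact_mod_cast ha
  have hbR : (0 : ℝ) < b := by exact_mod_cast hb
  have hqR : (0 : ℝ) < q := by exact_mod_cast hq
  have hnR : (0 : ℝ) < n := by exact_mod_cast hn
  have hba0 : (0 : ℝ) < (b : ℝ) / a := div_pos hbR haR
  have hba1 : (b : ℝ) / a ≤ 1 := by
    rw [div_le_one haR]
    exact_mod_cast hba
  obtain ⟨s₀, Q, hQ, hQ'⟩ : ∃ (s₀ : ℕ) (Q : Fin s₀ → Finset (Fin q)), (∀ k, Vars A H (Q k)) ∧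
      ∀ Q', Vars A H Q' → ∃ k, Q k = Q' := by
    obtain ⟨T, hT⟩ : ∃ T : Finset (Finset (Fin q)), ∀ Q', Q' ∈ T ↔ Vars A H Q' :=
      ⟨Finset.univ.filter fun Q' => Vars A H Q', fun Q' => by simp⟩
    refine ⟨T.card, fun k => (T.equivFin.symm k : Finset (Fin q)), fun k => ?_, fun Q' h' => ?_⟩
    · exact (hT _).1 (T.equivFin.symm k).2
    · refine ⟨T.equivFin ⟨Q', (hT _).2 h'⟩, ?_⟩
      change ((T.equivFin.symm (T.equivFin ⟨Q', (hT _).2 h'⟩) : T) : Finset (Fin q)) = Q'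
      rw [Equiv.symm_apply_apply]
  obtain ⟨w, κ, hw, hw1, h1, h2, hE⟩ := K10c hn hq A H hX hD
    (fun L _ _ _ P hP i => F1_pt (F1_pr hX) L P hP i) Q hQ
  have hκq : (0 : ℝ) < (q : ℝ) / (2 * n) := by positivity
  have hκ0 : 0 < κ := lt_of_lt_of_le hκq h1
  refine ⟨w, (b : ℝ) / a * κ, hw, hw1, mul_le_mul_of_nonneg_left h1 hba0.le,
    fun h3 h4 => mul_lt_mul_of_pos_left (h2 h3 h4) hba0, fun η hη => ?_⟩
  obtain ⟨M, r, ω, hr, hM, hω, ⟨E⟩⟩ := hE (min η κ) (lt_min hη hκ0)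
  have hω0 : ∀ i, 0 ≤ ω i := fun i => le_trans
    (mul_nonneg (sub_nonneg.2 (min_le_right _ _)) (Nat.cast_nonneg _)) (hω i)
  refine ⟨M, r, fun i => (b : ℝ) / a * ω i, hr, fun i => (hM i).trans (min_le_left _ _), fun i => ?_,
    G1_est A H hX.hom ha hC hQ' hω0 E⟩
  have h3 := mul_le_mul_of_nonneg_left (hω i) hba0.le
  refine le_trans ?_ h3
  rw [← mul_assoc]
  refine mul_le_mul_of_nonneg_right ?_ (Nat.cast_nonneg _)
  have h4 : (b : ℝ) / a * min η κ ≤ 1 * η :=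
    mul_le_mul hba1 (min_le_left _ _) (le_min hη.le hκ0.le) zero_le_one
  rw [mul_sub]
  linarith

/-- **T5.** -/
theorem T5_main {K : Type u} [Field K] [NumberField K] {N q m κ₀ n a b : ℕ} (hn : 0 < n) (hq : 0 < q) (hb : 0 < b)
    (hba : b ≤ a) (A : AV K N) (H : Fin κ₀ → Fm K N q m) (hX : Vars A H ∅) (hD : Dim n A H) (hC : Cov a b A H) :
    ∃ (w : Fin q → ℝ) (θ : ℝ), (∀ i, 0 < w i) ∧ ∑ i, w i = 1 ∧ 0 < θ ∧ θ ≤ 2 * n * a / (q * b) ∧
      (∀ (S : Finset (FinitePlace K)) (ε : ℝ), 0 < ε → ∃ (C : ℝ) (F : Fm K N q m), Exc A H F ∧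
        ∀ (P : A.Pts K) (y : Fin q → Fin (m + 1) → K), InX H (A.x P) y → val F (A.x P) y ≠ 0 →
          (∀ i, y i 0 ≠ 0) ∧
          ∑ i, w i * prox S (y i) ≤ θ * ∑ i, w i * logHeight (y i) +
            ε * (∑ i, logHeight (y i) + logHeight (A.x P)) + C) ∧
      (2 * n * a < q * b ∨ 2 ≤ n ∧ 2 * n * a ≤ q * b → θ < 1 ∧
        ∀ p : Fin (N + 1) → MvPolynomial (Fin q × Fin (m + 1)) K, IsMap A H p →
        ∀ S : Finset (FinitePlace K), ∃ F : Fm K N q m, Exc A H F ∧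
          {z : A.Pts K × (Fin q → Fin (m + 1) → K) | InX H (A.x z.1) z.2 ∧ (∀ i, z.2 i 0 = 1) ∧
            (∀ v ∉ S, ∀ i l, v (z.2 i l) ≤ 1) ∧ val F (A.x z.1) z.2 ≠ 0}.Finite) := by
  have hP := F1_pr hX
  obtain ⟨w, κ, hw, hw1, hκ, hκ2, hE⟩ := F1_cov hn hq hb hba A H hX hD hC
  have ha : 0 < a := lt_of_lt_of_le hb hba
  have haR : (0 : ℝ) < a := by exact_mod_cast ha
  have hbR : (0 : ℝ) < b := by exact_mod_cast hb
  have hqR : (0 : ℝ) < q := by exact_mod_cast hq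
  have hnR : (0 : ℝ) < n := by exact_mod_cast hn
  have hwle : ∀ i, w i ≤ 1 := fun i => by
    rw [← hw1]
    exact Finset.single_le_sum (f := w) (fun j _ => (hw j).le) (Finset.mem_univ i)
  have hκq : (0 : ℝ) < (b : ℝ) / a * ((q : ℝ) / (2 * n)) := by positivity
  have hκ0 : 0 < κ := lt_of_lt_of_le hκq hκ
  refine ⟨w, κ⁻¹, hw, hw1, inv_pos.2 hκ0, ?_, fun S ε hε => ?_, fun h => ?_⟩
  · have e1 : (2 * n * a / (q * b) : ℝ) = ((b : ℝ) / a * ((q : ℝ) / (2 * n)))⁻¹ := by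
      field_simp
    rw [e1]
    exact inv_anti₀ hκq hκ
  · exact finalW A H hP hκ0 hwle hE S ε hε
  · have hκ1 : 1 < κ := by
      rcases h with h | ⟨h4, h5⟩
      · refine lt_of_lt_of_le ?_ hκ
        have h6 : (2 * n * a : ℝ) < q * b := by exact_mod_cast h
        rw [div_mul_div_comm, lt_div_iff₀ (by positivity)]
        linarith
      · have h6 : 2 * n ≤ q := by
          have h7 : 2 * n * b ≤ q * b := (Nat.mul_le_mul_left _ hba).trans h5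
          exact Nat.le_of_mul_le_mul_right h7 hb
        refine lt_of_le_of_lt ?_ (hκ2 h4 h6)
        have h7 : (2 * n * a : ℝ) ≤ q * b := by exact_mod_cast h5
        rw [div_mul_div_comm, le_div_iff₀ (by positivity)]
        linarith
    exact ⟨inv_lt_one_of_one_lt₀ hκ1, fun p hp S => finalI A H hP hκ1 hw hwle hE p hp S⟩

end UTG
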