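import Pool.Agent.Lib.MP_17a322_ntTG.F1

/-!
T5: divisors in any position, from any constant `c` for the divisors which meet properly.
-/

set_option autoImplicit false

universe u

namespace UTG

open MvPolynomial UTA UTD UTC Height NumberField
open Pool.Agent.Lib.MP_17a322_nt.VA Pool.Agent.Lib.MP_17a322_nt.SL

/-- There are weights and a constant `κ ≥ c` (`κ > c` if `s`) for the families of divisors which meet properly. -/
def Kap {K : Type u} [Field K] {N q m κ₀ : ℕ} (A : AV K N) (H : Fin κ₀ → Fm K N q m) (c : ℝ) (s : Prop) : Prop :=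
  ∀ {s₀ : ℕ} (Q : Fin s₀ → Finset (Fin q)), (∀ k, Vars A H (Q k)) →
    ∃ (w : Fin q → ℝ) (κ : ℝ), (∀ i, 0 < w i) ∧ ∑ i, w i = 1 ∧ c ≤ κ ∧ (s → c < κ) ∧ ∀ η : ℝ, 0 < η →
      ∃ (M : Fin q → ℕ) (r : ℕ) (ω : Fin q → ℝ), 0 < r ∧ (∀ i, |(M i : ℝ) / ∑ l, (M l : ℝ) - w i| ≤ η) ∧
        (∀ i, (κ - η) * M i ≤ ω i) ∧ Nonempty (EstV A H M r fun k i => if i ∈ Q k then ω i else 0)

/-- The constant `2 n`. -/
theorem Kap_two {K : Type u} [Field K] [CharZero K] {N q m κ₀ n : ℕ} (hn : 0 < n) (hq : 0 < q) (A : AV K N)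
    (H : Fin κ₀ → Fm K N q m) (hX : Vars A H ∅) (hD : Dim n A H) :
    Kap A H ((q : ℝ) / (2 * n)) (2 ≤ n ∧ 2 * n ≤ q) := by
  intro s₀ Q hQ
  obtain ⟨w, κ, hw, hw1, h1, h2, hE⟩ := K10c hn hq A H hX hD
    (fun L _ _ _ P hP i => F1_pt (F1_pr hX) L P hP i) Q hQ
  exact ⟨w, κ, hw, hw1, h1, fun h => h2 h.1 h.2, hE⟩

/-- The constant `κ`. -/
theorem F2_cov {K : Type u} [Field K] {N q m κ₀ a b : ℕ} (hb : 0 < b)
    (hba : b ≤ a) (A : AV K N) (H : Fin κ₀ → Fm K N q m) (hX : Vars A H ∅) (hC : Cov a b A H)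
    {c : ℝ} (hc : 0 < c) {s : Prop} (hK : Kap A H c s) :
    ∃ (w : Fin q → ℝ) (κ : ℝ), (∀ i, 0 < w i) ∧ ∑ i, w i = 1 ∧ (b : ℝ) / a * c ≤ κ ∧
      (s → (b : ℝ) / a * c < κ) ∧ ∀ η : ℝ, 0 < η →
      ∃ (M : Fin q → ℕ) (r : ℕ) (g : Fin q → ℝ), 0 < r ∧ (∀ i, |(M i : ℝ) / ∑ l, (M l : ℝ) - w i| ≤ η) ∧
        (∀ i, (κ - η) * M i ≤ g i) ∧ Nonempty (EstG A H M r g) := by
  classical
  have ha : 0 < a := lt_of_lt_of_le hb hba
  have haR : (0 : ℝ) < a := by exact_mod_cast ha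
  have hbR : (0 : ℝ) < b := by exact_mod_cast hb
  have hba0 : (0 : ℝ) < (b : ℝ) / a := div_pos hbR haR
  have hba1 : (b : ℝ) / a ≤ 1 := by
    rw [div_le_one haR]
    exact_mod_cast hba
  obtain ⟨s₀, Q, hQ, hQ'⟩ : ∃ (s₀ : ℕ) (Q : Fin s₀ → Finset (Fin q)), (∀ k, Vars A H (Q k)) ∧
      ∀ Q', Vars A H Q' → ∃ k, Q k = Q' := by
    obtain ⟨T, hT⟩ : ∃ T : Finset (Finset (Fin q)), ∀ Q', Q' ∈ T ↔ Vars A H Q' :=
      ⟨Finset.univ.filter fun Q' => Vars A H Q', fun Q' => by simp⟩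
    refine ⟨T.card, fun k => (T.equivFin.symm k : Finset (Fin q)), fun k => ?_, fun Q' h' => ?_⟩
    · exact (hT _).1 (T.equivFin.symm k).2
    · refine ⟨T.equivFin ⟨Q', (hT _).2 h'⟩, ?_⟩
      change ((T.equivFin.symm (T.equivFin ⟨Q', (hT _).2 h'⟩) : T) : Finset (Fin q)) = Q'
      rw [Equiv.symm_apply_apply]
  obtain ⟨w, κ, hw, hw1, h1, h2, hE⟩ := hK Q hQ
  have hκ0 : 0 < κ := lt_of_lt_of_le hc h1
  refine ⟨w, (b : ℝ) / a * κ, hw, hw1, mul_le_mul_of_nonneg_left h1 hba0.le,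
    fun h3 => mul_lt_mul_of_pos_left (h2 h3) hba0, fun η hη => ?_⟩
  obtain ⟨M, r, ω, hr, hM, hω, ⟨E⟩⟩ := hE (min η κ) (lt_min hη hκ0)
  have hω0 : ∀ i, 0 ≤ ω i := fun i => le_trans
    (mul_nonneg (sub_nonneg.2 (min_le_right _ _)) (Nat.cast_nonneg _)) (hω i)
  refine ⟨M, r, fun i => (b : ℝ) / a * ω i, hr, fun i => (hM i).trans (min_le_left _ _), fun i => ?_,
    G1_est A H hX.hom ha hC hQ' hω0 E⟩
  have h3 := mul_le_mul_of_nonneg_left (hω i) hba0.le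
  refine le_trans ?_ h3
  rw [← mul_assoc]
  refine mul_le_mul_of_nonneg_right ?_ (Nat.cast_nonneg _)
  have h4 : (b : ℝ) / a * min η κ ≤ 1 * η :=
    mul_le_mul hba1 (min_le_left _ _) (le_min hη.le hκ0.le) zero_le_one
  rw [mul_sub]
  linarith

/-- **T5 for any constant `c`** (`c = q / (2 n)`, or `c = q / (n + 1)` for proportional divisors). -/
theorem main_of_kappa {K : Type u} [Field K] [NumberField K] {N q m κ₀ a b : ℕ} (hb : 0 < b)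
    (hba : b ≤ a) (A : AV K N) (H : Fin κ₀ → Fm K N q m) (hX : Vars A H ∅) (hC : Cov a b A H)
    {c : ℝ} (hc : 0 < c) {s : Prop} (hK : Kap A H c s) :
    ∃ (w : Fin q → ℝ) (θ : ℝ), (∀ i, 0 < w i) ∧ ∑ i, w i = 1 ∧ 0 < θ ∧ θ ≤ a / (b * c) ∧
      (∀ (S : Finset (FinitePlace K)) (ε : ℝ), 0 < ε → ∃ (C : ℝ) (F : Fm K N q m), Exc A H F ∧
        ∀ (P : A.Pts K) (y : Fin q → Fin (m + 1) → K), InX H (A.x P) y → val F (A.x P) y ≠ 0 →
          (∀ i, y i 0 ≠ 0) ∧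
          ∑ i, w i * prox S (y i) ≤ θ * ∑ i, w i * logHeight (y i) +
            ε * (∑ i, logHeight (y i) + logHeight (A.x P)) + C) ∧
      ((a : ℝ) < b * c ∨ s ∧ (a : ℝ) ≤ b * c → θ < 1 ∧
        ∀ p : Fin (N + 1) → MvPolynomial (Fin q × Fin (m + 1)) K, IsMap A H p →
        ∀ S : Finset (FinitePlace K), ∃ F : Fm K N q m, Exc A H F ∧
          {z : A.Pts K × (Fin q → Fin (m + 1) → K) | InX H (A.x z.1) z.2 ∧ (∀ i, z.2 i 0 = 1) ∧
            (∀ v ∉ S, ∀ i l, v (z.2 i l) ≤ 1) ∧ val F (A.x z.1) z.2 ≠ 0}.Finite) := by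
  have hP := F1_pr hX
  obtain ⟨w, κ, hw, hw1, hκ, hκ2, hE⟩ := F2_cov hb hba A H hX hC hc hK
  have ha : 0 < a := lt_of_lt_of_le hb hba
  have haR : (0 : ℝ) < a := by exact_mod_cast ha
  have hbR : (0 : ℝ) < b := by exact_mod_cast hb
  have hwle : ∀ i, w i ≤ 1 := fun i => by
    rw [← hw1]
    exact Finset.single_le_sum (f := w) (fun j _ => (hw j).le) (Finset.mem_univ i)
  have hκq : (0 : ℝ) < (b : ℝ) / a * c := by positivity
  have hκ0 : 0 < κ := lt_of_lt_of_le hκq hκ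
  refine ⟨w, κ⁻¹, hw, hw1, inv_pos.2 hκ0, ?_, fun S ε hε => ?_, fun h => ?_⟩
  · have e1 : (a / (b * c) : ℝ) = ((b : ℝ) / a * c)⁻¹ := by
      field_simp
    rw [e1]
    exact inv_anti₀ hκq hκ
  · exact finalW A H hP hκ0 hwle hE S ε hε
  · have hκ1 : 1 < κ := by
      rcases h with h | ⟨h4, h5⟩
      · refine lt_of_lt_of_le ?_ hκ
        rw [div_mul_eq_mul_div, lt_div_iff₀ haR]
        linarith
      · refine lt_of_le_of_lt ?_ (hκ2 h4)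
        rw [div_mul_eq_mul_div, le_div_iff₀ haR]
        linarith
    exact ⟨inv_lt_one_of_one_lt₀ hκ1, fun p hp S => finalI A H hP hκ1 hw hwle hE p hp S⟩

end UTG
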