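import Mathlib

/-!
The sums of a sequence of polynomial growth: `(1 / (n + 1) - η) t a_t ≤ ∑ a_u`, `u < t`, for arbitrarily large `t`.
-/

set_option autoImplicit false

namespace UTG

open Filter

theorem P0_sum (a : ℕ → ℝ) (C : ℝ) (n : ℕ) (ha0 : 0 ≤ a 0) (ha : ∀ t, 1 ≤ t → 1 ≤ a t)
    (hC : ∀ t : ℕ, 1 ≤ t → a t ≤ C * (t : ℝ) ^ n) (η : ℝ) (hη : 0 < η) (T : ℕ) :
    ∃ t : ℕ, T ≤ t ∧ 1 ≤ t ∧ (1 / ((n : ℝ) + 1) - η) * (t * a t) ≤ ∑ u ∈ Finset.range t, a u := by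
  by_contra hcon
  have hS : ∀ t : ℕ, T ≤ t → 1 ≤ t → ∑ u ∈ Finset.range t, a u < (1 / ((n : ℝ) + 1) - η) * (t * a t) := by
    intro t h1 h2
    by_contra h3
    exact hcon ⟨t, h1, h2, not_lt.1 h3⟩
  have hann : ∀ t, 0 ≤ a t := by
    intro t
    rcases Nat.eq_zero_or_pos t with h | h
    · rw [h]
      exact ha0
    · exact zero_le_one.trans (ha t h)
  obtain ⟨S, hSdef⟩ : ∃ S : ℕ → ℝ, S = fun t => ∑ u ∈ Finset.range t, a u := ⟨_, rfl⟩
  have hSs : ∀ t, S (t + 1) = S t + a t := fun t => by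
    rw [hSdef]
    exact Finset.sum_range_succ a t
  have hS0 : ∀ t, 0 ≤ S t := fun t => by
    rw [hSdef]
    exact Finset.sum_nonneg fun u _ => hann u
  obtain ⟨θ, hθ⟩ : ∃ θ : ℝ, θ = 1 / ((n : ℝ) + 1) - η := ⟨_, rfl⟩
  have hSt : ∀ t : ℕ, T ≤ t → 1 ≤ t → S t < θ * (t * a t) := fun t h1 h2 => by
    rw [hSdef, hθ]
    exact hS t h1 h2
  have hθ0 : 0 < θ := by
    by_contra h
    have h1 := hSt (T + 1) (Nat.le_succ T) (Nat.le_add_left 1 T)
    have h2 : θ * (((T + 1 : ℕ) : ℝ) * a (T + 1)) ≤ 0 :=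
      mul_nonpos_of_nonpos_of_nonneg (not_lt.1 h) (mul_nonneg (Nat.cast_nonneg _) (hann _))
    linarith [hS0 (T + 1)]
  have hn1 : (0 : ℝ) < (n : ℝ) + 1 := by positivity
  obtain ⟨ε, hε⟩ : ∃ ε : ℝ, ε = 1 / θ - (n + 1) := ⟨_, rfl⟩
  have hε0 : 0 < ε := by
    rw [hε, sub_pos, lt_div_iff₀ hθ0]
    have h1 : θ < 1 / ((n : ℝ) + 1) := by
      rw [hθ]
      linarith
    calc ((n : ℝ) + 1) * θ < (n + 1) * (1 / ((n : ℝ) + 1)) := mul_lt_mul_of_pos_left h1 hn1
      _ = 1 := by field_simp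
  obtain ⟨R, hR⟩ : ∃ R : ℕ → ℝ, R = fun t => ((t.ascFactorial (n + 1) : ℕ) : ℝ) := ⟨_, rfl⟩
  have hRs : ∀ t : ℕ, (t : ℝ) * R (t + 1) = ((t : ℝ) + (n + 1)) * R t := fun t => by
    rw [hR]
    have h1 := Nat.succ_ascFactorial t (n + 1)
    have h2 : ((t * (t + 1).ascFactorial (n + 1) : ℕ) : ℝ) = ((t + (n + 1)) * t.ascFactorial (n + 1) : ℕ) := by
      exact_mod_cast h1
    push_cast at h2
    exact h2
  have hRp : ∀ t : ℕ, 1 ≤ t → (t : ℝ) ^ (n + 1) ≤ R t := fun t _ => by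
    rw [hR]
    have h1 : ((t ^ (n + 1) : ℕ) : ℝ) ≤ ((t.ascFactorial (n + 1) : ℕ) : ℝ) :=
      Nat.cast_le.2 (Nat.pow_succ_le_ascFactorial t (n + 1))
    rw [Nat.cast_pow] at h1
    exact h1
  have hR0 : ∀ t : ℕ, 1 ≤ t → 0 < R t := fun t ht =>
    lt_of_lt_of_le (pow_pos (by exact_mod_cast ht) _) (hRp t ht)
  -- the recursion
  have hrec : ∀ t : ℕ, T ≤ t → 1 ≤ t → S t / R t * (1 + ε / (t + (n + 1))) ≤ S (t + 1) / R (t + 1) := by
    intro t h1 h2
    have ht : (0 : ℝ) < t := by exact_mod_cast h2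
    have h3 : 1 / θ * S t ≤ t * a t := by
      rw [one_div, inv_mul_le_iff₀ hθ0]
      exact (hSt t h1 h2).le
    have h4 : (t + 1 / θ) * S t ≤ t * S (t + 1) := by
      rw [hSs]
      nlinarith
    have h5 : S (t + 1) / R (t + 1) = t * S (t + 1) / ((t + (n + 1)) * R t) := by
      rw [← hRs, mul_div_mul_left _ _ ht.ne']
    have h6 : S t / R t * (1 + ε / (t + (n + 1))) = (t + 1 / θ) * S t / ((t + (n + 1)) * R t) := by
      have h7 : R t ≠ 0 := (hR0 t h2).ne'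
      have h8 : (t : ℝ) + (n + 1) ≠ 0 := by positivity
      rw [hε]
      field_simp
      ring
    rw [h5, h6]
    have h9 : 0 < ((t : ℝ) + (n + 1)) * R t := mul_pos (by positivity) (hR0 t h2)
    exact div_le_div_of_nonneg_right h4 h9.le
  obtain ⟨T₁, hT₁⟩ : ∃ T₁ : ℕ, T₁ = max T 1 + 1 := ⟨_, rfl⟩
  have hT1 : T ≤ T₁ := by
    rw [hT₁]
    exact (le_max_left T 1).trans (Nat.le_succ _)
  have hT2 : 2 ≤ T₁ := by
    rw [hT₁]
    have := le_max_right T 1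
    omega
  obtain ⟨b, hb⟩ : ∃ b : ℝ, b = S T₁ / R T₁ := ⟨_, rfl⟩
  have hb0 : 0 < b := by
    have h1 : 1 ≤ S T₁ := by
      have h2 : a 1 ≤ S T₁ := by
        rw [hSdef]
        exact Finset.single_le_sum (f := a) (fun u _ => hann u) (Finset.mem_range.2 (by omega))
      exact (ha 1 le_rfl).trans h2
    rw [hb]
    exact div_pos (by linarith) (hR0 T₁ (by omega))
  obtain ⟨B, hB⟩ : ∃ B : ℝ, B = T₁ + (n + 1) := ⟨_, rfl⟩
  have hB1 : 1 ≤ B := by
    rw [hB]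
    have h1 : (2 : ℝ) ≤ T₁ := by exact_mod_cast hT2
    linarith
  have hlow : ∀ s : ℕ, b * (1 + ε * (1 / B * ∑ i ∈ Finset.range s, 1 / ((i : ℝ) + 1))) ≤
      S (T₁ + s) / R (T₁ + s) := by
    intro s
    induction s with
    | zero =>
      rw [Finset.range_zero, Finset.sum_empty, mul_zero, mul_zero, add_zero, mul_one, add_zero, hb]
    | succ s ih =>
      have h1 := hrec (T₁ + s) (by omega) (by omega)
      have h2 : b ≤ S (T₁ + s) / R (T₁ + s) := by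
        refine le_trans ?_ ih
        have h3 : 0 ≤ ε * (1 / B * ∑ i ∈ Finset.range s, 1 / ((i : ℝ) + 1)) :=
          mul_nonneg hε0.le (mul_nonneg (by positivity) (Finset.sum_nonneg fun i _ => by positivity))
        nlinarith
      have h4 : 1 / B * (1 / ((s : ℝ) + 1)) ≤ 1 / (((T₁ + s : ℕ) : ℝ) + (n + 1)) := by
        rw [one_div_mul_one_div]
        refine one_div_le_one_div_of_le (by positivity) ?_
        push_cast
        rw [hB] at hB1 ⊢
        nlinarith [Nat.cast_nonneg (α := ℝ) s]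
      have h5 : S (T₁ + s) / R (T₁ + s) * (1 + ε / (((T₁ + s : ℕ) : ℝ) + (n + 1))) =
          S (T₁ + s) / R (T₁ + s) + S (T₁ + s) / R (T₁ + s) * (ε * (1 / (((T₁ + s : ℕ) : ℝ) + (n + 1)))) := by
        ring
      have h6 : b * (ε * (1 / B * (1 / ((s : ℝ) + 1)))) ≤
          S (T₁ + s) / R (T₁ + s) * (ε * (1 / (((T₁ + s : ℕ) : ℝ) + (n + 1)))) :=
        mul_le_mul h2 (mul_le_mul_of_nonneg_left h4 hε0.le) (by positivity) (hb0.le.trans h2)
      rw [Finset.sum_range_succ, ← add_assoc T₁ s 1]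
      rw [h5] at h1
      linarith [ih, h6, h1]
  have hup : ∀ t : ℕ, 1 ≤ t → S t / R t ≤ a 0 + C := by
    intro t ht
    have htR : (1 : ℝ) ≤ t := by exact_mod_cast ht
    have hC0 : 0 ≤ C := by
      have h1 := hC 1 le_rfl
      rw [Nat.cast_one, one_pow, mul_one] at h1
      linarith [hann 1]
    have h1 : S t ≤ (a 0 + C) * (t : ℝ) ^ (n + 1) := by
      have h2 : S t ≤ ∑ u ∈ Finset.range t, (a 0 + C) * (t : ℝ) ^ n := by
        rw [hSdef]
        refine Finset.sum_le_sum fun u hu => ?_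
        have hut : u < t := Finset.mem_range.1 hu
        have h3 : (1 : ℝ) ≤ (t : ℝ) ^ n := one_le_pow₀ htR
        rcases Nat.eq_zero_or_pos u with h | h
        · rw [h]
          nlinarith
        · have h4 : (u : ℝ) ^ n ≤ (t : ℝ) ^ n :=
            pow_le_pow_left₀ (Nat.cast_nonneg _) (by exact_mod_cast hut.le) n
          have h5 := mul_le_mul_of_nonneg_left h4 hC0
          nlinarith [hC u h]
      rw [Finset.sum_const, Finset.card_range, nsmul_eq_mul] at h2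
      rw [pow_succ]
      linarith
    rw [div_le_iff₀ (hR0 t ht)]
    exact h1.trans (mul_le_mul_of_nonneg_left (hRp t ht) (add_nonneg ha0 hC0))
  have hdiv := Real.tendsto_sum_range_one_div_nat_succ_atTop.eventually_gt_atTop
    (B / ε * ((a 0 + C) / b))
  obtain ⟨s, hs⟩ := hdiv.exists
  have h1 := (hlow s).trans (hup (T₁ + s) (by omega))
  have h2 : (a 0 + C) / b < 1 + ε * (1 / B * ∑ i ∈ Finset.range s, 1 / ((i : ℝ) + 1)) := by
    have h3 : (a 0 + C) / b < ε * (1 / B * ∑ i ∈ Finset.range s, 1 / ((i : ℝ) + 1)) := by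
      have hB0 : 0 < B := by linarith
      have h4 : ε * (1 / B * (B / ε * ((a 0 + C) / b))) = (a 0 + C) / b := by
        field_simp
      rw [← h4]
      exact mul_lt_mul_of_pos_left (mul_lt_mul_of_pos_left hs (by positivity)) hε0
    linarith
  rw [div_lt_iff₀ hb0] at h2
  linarith

end UTG
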