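import Pool.Agent.Lib.MP_17a322_ntTA.B3
import Pool.Agent.Lib.MP_17a322_ntTD.Defs

/-!
Multiplication by products of sections of `u_l L_l - v_l D_i`.
-/

set_option autoImplicit false

universe u

namespace UTG

open MvPolynomial UTA UTD

private theorem P1_mm {R : Type*} [CommRing R] {I : Ideal R} {x p r : R} {a b : ℕ} (hp : p ∈ I ⊔ Ideal.span {x ^ a})
    (hr : r ∈ I ⊔ Ideal.span {x ^ b}) : p * r ∈ I ⊔ Ideal.span {x ^ (a + b)} := by
  obtain ⟨i, hi, y, hy, rfl⟩ := Submodule.mem_sup.1 hp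
  obtain ⟨c, rfl⟩ := Ideal.mem_span_singleton'.1 hy
  obtain ⟨i', hi', y', hy', rfl⟩ := Submodule.mem_sup.1 hr
  obtain ⟨c', rfl⟩ := Ideal.mem_span_singleton'.1 hy'
  have h1 : (i + c * x ^ a) * (i' + c' * x ^ b) = (i * (i' + c' * x ^ b) + c * x ^ a * i') + c * c' * x ^ (a + b) := by
    rw [pow_add]
    ring
  rw [h1]
  exact Submodule.add_mem_sup (I.add_mem (I.mul_mem_right _ hi) (I.mul_mem_left _ hi'))
    (Ideal.mul_mem_left _ _ (Ideal.mem_span_singleton_self _))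

private theorem P1_sm {L : Type u} [Field L] {q m : ℕ} {I : Ideal (MvPolynomial (Fin q × Fin (m + 1)) L)}
    {x f g : MvPolynomial (Fin q × Fin (m + 1)) L} {a b : ℕ} (hf : f ∈ sat (I ⊔ Ideal.span {x ^ a}))
    (hg : g ∈ sat (I ⊔ Ideal.span {x ^ b})) : f * g ∈ sat (I ⊔ Ideal.span {x ^ (a + b)}) := by
  intro l
  obtain ⟨c, hc⟩ := hf l
  obtain ⟨d, hd⟩ := hg l
  refine ⟨c + d, ?_⟩
  have h1 : (∏ t, X (t, l t)) ^ (c + d) * (f * g) = ((∏ t, X (t, l t)) ^ c * f) * ((∏ t, X (t, l t)) ^ d * g) := by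
    rw [pow_add]
    ring
  rw [h1]
  exact P1_mm hc hd

private theorem P1_s1 {L : Type u} [Field L] {q m : ℕ} {I : Ideal (MvPolynomial (Fin q × Fin (m + 1)) L)}
    {x : MvPolynomial (Fin q × Fin (m + 1)) L} : 1 ∈ sat (I ⊔ Ideal.span {x ^ 0}) := by
  intro l
  refine ⟨0, Ideal.mem_sup_right ?_⟩
  rw [pow_zero, pow_zero, one_mul]
  exact Ideal.mem_span_singleton_self _

private theorem P1_sp {L : Type u} [Field L] {q m : ℕ} {I : Ideal (MvPolynomial (Fin q × Fin (m + 1)) L)}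
    {x f : MvPolynomial (Fin q × Fin (m + 1)) L} {a : ℕ} (hf : f ∈ sat (I ⊔ Ideal.span {x ^ a})) (k : ℕ) :
    f ^ k ∈ sat (I ⊔ Ideal.span {x ^ (k * a)}) := by
  induction k with
  | zero =>
    rw [pow_zero, Nat.zero_mul]
    exact P1_s1
  | succ k ih =>
    rw [pow_succ, Nat.succ_mul]
    exact P1_sm ih hf

private theorem P1_sa {L : Type u} [Field L] {q m : ℕ} {I : Ideal (MvPolynomial (Fin q × Fin (m + 1)) L)}
    {x f : MvPolynomial (Fin q × Fin (m + 1)) L} {a b : ℕ} (hab : a ≤ b) (hf : f ∈ sat (I ⊔ Ideal.span {x ^ b})) :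
    f ∈ sat (I ⊔ Ideal.span {x ^ a}) := by
  intro l
  obtain ⟨c, hc⟩ := hf l
  refine ⟨c, (sup_le_sup_left ?_ I : I ⊔ Ideal.span {x ^ b} ≤ I ⊔ Ideal.span {x ^ a}) hc⟩
  rw [Ideal.span_singleton_le_span_singleton]
  exact pow_dvd_pow x hab

private theorem P1_m1 {L : Type u} [Field L] {q m : ℕ} : (1 : MvPolynomial (Fin q × Fin (m + 1)) L) ∈ MH L m 0 := by
  intro μ hμ i
  rw [mem_support_iff, coeff_one] at hμ
  have h1 : (0 : Fin q × Fin (m + 1) →₀ ℕ) = μ := by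
    by_contra h1
    exact hμ (if_neg h1)
  rw [← h1]
  simp

private theorem P1_mp {L : Type u} [Field L] {q m : ℕ} {f : MvPolynomial (Fin q × Fin (m + 1)) L} {δ : Fin q → ℕ}
    (hfδ : f ∈ MH L m δ) (j : ℕ) : f ^ j ∈ MH L m (j • δ) := by
  induction j with
  | zero =>
    rw [pow_zero, zero_smul]
    exact P1_m1
  | succ j ih =>
    rw [pow_succ, succ_nsmul]
    exact B3_mul ih hfδ

private theorem P1_prod {L : Type u} [Field L] {q m : ℕ} {I : Ideal (MvPolynomial (Fin q × Fin (m + 1)) L)}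
    {x : MvPolynomial (Fin q × Fin (m + 1)) L} {u v : Fin q → ℕ} {f : Fin q → MvPolynomial (Fin q × Fin (m + 1)) L}
    (hf : ∀ l, f l ∈ MH L m (Pi.single l (u l))) (hfs : ∀ l, f l ∈ sat (I ⊔ Ideal.span {x ^ v l}))
    (k : Fin q → ℕ) (s : Finset (Fin q)) :
    ∏ l ∈ s, f l ^ k l ∈ MH L m (∑ l ∈ s, k l • (Pi.single l (u l) : Fin q → ℕ)) ∧
      ∏ l ∈ s, f l ^ k l ∈ sat (I ⊔ Ideal.span {x ^ ∑ l ∈ s, k l * v l}) := by
  classical
  induction s using Finset.induction_on with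
  | empty =>
    rw [Finset.prod_empty, Finset.sum_empty, Finset.sum_empty]
    exact ⟨P1_m1, P1_s1⟩
  | insert a s ha ih =>
    rw [Finset.prod_insert ha, Finset.sum_insert ha, Finset.sum_insert ha]
    exact ⟨B3_mul (P1_mp (hf a) (k a)) ih.1, P1_sm (P1_sp (hfs a) (k a)) ih.2⟩

theorem P1_ord {L : Type u} [Field L] {q m : ℕ} {I : Ideal (MvPolynomial (Fin q × Fin (m + 1)) L)} (hI : I.IsPrime)
    {i : Fin q} {u v : Fin q → ℕ} {f : Fin q → MvPolynomial (Fin q × Fin (m + 1)) L}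
    (hf : ∀ l, f l ∈ MH L m (Pi.single l (u l))) (hfs : ∀ l, f l ∈ sat (I ⊔ Ideal.span {X (i, 0) ^ v l}))
    (hfI : ∀ l, f l ∉ I) (k : Fin q → ℕ) {M M' : Fin q → ℕ} (hM : ∀ l, M l = M' l + k l * u l) {j : ℕ}
    (hj : j ≤ ∑ l, k l * v l) : UTA.hf I M' ≤ ordD I M i j := by
  have := hI
  have : IsDomain (MvPolynomial (Fin q × Fin (m + 1)) L ⧸ I) := Ideal.Quotient.isDomain I
  have h0 := B3_fd (k := L) (m := m) M
  obtain ⟨F, hF⟩ : ∃ F, F = ∏ l, f l ^ k l := ⟨_, rfl⟩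
  obtain ⟨hF1, hF2⟩ := P1_prod hf hfs k Finset.univ
  rw [← hF] at hF1 hF2
  have hFI : F ∉ I := by
    rw [hF]
    intro h1
    obtain ⟨l, -, hl⟩ := Ideal.IsPrime.prod_mem_iff.1 h1
    exact hfI l (hI.mem_of_pow_mem _ hl)
  have hne : Ideal.Quotient.mk I F ≠ 0 := fun h => hFI (Ideal.Quotient.eq_zero_iff_mem.1 h)
  have hfd : FiniteDimensional L
      ((MH L m M) ⊓ (sat (I ⊔ Ideal.span {X (i, 0) ^ j})).restrictScalars L : Submodule L _) :=
    Submodule.finiteDimensional_of_le inf_le_left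
  have hfd2 : FiniteDimensional L (((MH L m M) ⊓ (sat (I ⊔ Ideal.span {X (i, 0) ^ j})).restrictScalars L).map
      (Ideal.Quotient.mkₐ L I).toLinearMap) := Module.Finite.map _ _
  have hmem : ∀ x ∈ (MH L m M').map (Ideal.Quotient.mkₐ L I).toLinearMap,
      LinearMap.mulLeft L (Ideal.Quotient.mk I F) x ∈
        ((MH L m M) ⊓ (sat (I ⊔ Ideal.span {X (i, 0) ^ j})).restrictScalars L).map
          (Ideal.Quotient.mkₐ L I).toLinearMap := by
    intro x hx
    obtain ⟨p, hp, rfl⟩ := Submodule.mem_map.1 hx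
    refine Submodule.mem_map.2 ⟨F * p, Submodule.mem_inf.2 ⟨?_, ?_⟩, ?_⟩
    · have h1 : M = (∑ l, k l • (Pi.single l (u l) : Fin q → ℕ)) + M' := by
        funext l
        rw [Pi.add_apply, Finset.sum_apply, Finset.sum_eq_single l, Pi.smul_apply, Pi.single_eq_same, smul_eq_mul, hM l,
          add_comm]
        · intro l' _ hl'
          rw [Pi.smul_apply, Pi.single_eq_of_ne hl'.symm, smul_zero]
        · exact fun h => absurd (Finset.mem_univ l) h
      rw [h1]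
      exact B3_mul hF1 hp
    · exact P1_sa hj (Ideal.mul_mem_right _ _ hF2)
    · exact map_mul (Ideal.Quotient.mk I) F p
  let φ : (MH L m M').map (Ideal.Quotient.mkₐ L I).toLinearMap →ₗ[L]
      ((MH L m M) ⊓ (sat (I ⊔ Ideal.span {X (i, 0) ^ j})).restrictScalars L).map
        (Ideal.Quotient.mkₐ L I).toLinearMap :=
    (LinearMap.mulLeft L (Ideal.Quotient.mk I F)).restrict hmem
  have hφ : Function.Injective φ := by
    intro x y hxy
    apply Subtype.ext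
    have h1 : Ideal.Quotient.mk I F * (x : MvPolynomial (Fin q × Fin (m + 1)) L ⧸ I) =
        Ideal.Quotient.mk I F * (y : MvPolynomial (Fin q × Fin (m + 1)) L ⧸ I) :=
      congrArg Subtype.val hxy
    exact mul_left_cancel₀ hne h1
  exact LinearMap.finrank_le_finrank_of_injective hφ

/-- A section of `u L_l - v D_i`. -/
theorem P1_sec {L : Type u} [Field L] {q m : ℕ} {I : Ideal (MvPolynomial (Fin q × Fin (m + 1)) L)} {M : Fin q → ℕ}
    {i : Fin q} {v : ℕ} (h : 0 < ordD I M i v) :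
    ∃ f, f ∈ MH L m M ∧ f ∈ sat (I ⊔ Ideal.span {X (i, 0) ^ v}) ∧ f ∉ I := by
  by_contra hcon
  have h1 : ((MH L m M) ⊓ (sat (I ⊔ Ideal.span {X (i, 0) ^ v})).restrictScalars L).map
      (Ideal.Quotient.mkₐ L I).toLinearMap = ⊥ := by
    rw [eq_bot_iff]
    intro x hx
    obtain ⟨f, hf, rfl⟩ := Submodule.mem_map.1 hx
    obtain ⟨hf1, hf2⟩ := Submodule.mem_inf.1 hf
    rw [Submodule.mem_bot]
    by_contra h2
    exact hcon ⟨f, hf1, hf2, fun h3 => h2 (Ideal.Quotient.eq_zero_iff_mem.2 h3)⟩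
  unfold ordD at h
  rw [h1, finrank_bot] at h
  exact absurd h (lt_irrefl 0)

end UTG
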