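import Mathlib

/-!
Numbers: the multidegrees which are inversely proportional to `ρ`, and the sums of the orders of vanishing.
-/

set_option autoImplicit false

namespace UTG

open Filter

/-- Multidegrees which are nearly inversely proportional to `ρ`. -/
theorem P2_m {q : ℕ} (hq : 0 < q) (ρ : Fin q → ℝ) (hρ : ∀ i, 0 < ρ i) (e : ℝ) (he : 0 < e) (η : ℝ) (hη : 0 < η) :
    ∃ m : Fin q → ℕ, (∀ i, 1 ≤ m i) ∧ (∀ i l, (1 - e) * (m i * ρ i) ≤ m l * ρ l) ∧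
      ∀ i, |(m i : ℝ) / ∑ l, (m l : ℝ) - (1 / ρ i) / ∑ l, 1 / ρ l| ≤ η := by
  have h1 : ∀ i, Tendsto (fun x : ℝ => (⌊1 / ρ i * x⌋₊ : ℝ) / x) atTop (nhds (1 / ρ i)) := fun i =>
    tendsto_nat_floor_mul_div_atTop (by have := hρ i; positivity)
  have hS : 0 < ∑ l, 1 / ρ l := Finset.sum_pos (fun l _ => by have := hρ l; positivity) ⟨⟨0, hq⟩, Finset.mem_univ _⟩
  have h2 : Tendsto (fun x : ℝ => ∑ l, (⌊1 / ρ l * x⌋₊ : ℝ) / x) atTop (nhds (∑ l, 1 / ρ l)) :=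
    tendsto_finsetSum _ fun l _ => h1 l
  have h3 : ∀ i, Tendsto (fun x : ℝ => ((⌊1 / ρ i * x⌋₊ : ℝ) / x) / ∑ l, (⌊1 / ρ l * x⌋₊ : ℝ) / x) atTop
      (nhds ((1 / ρ i) / ∑ l, 1 / ρ l)) := fun i => (h1 i).div h2 hS.ne'
  have e1 : ∀ᶠ x : ℝ in atTop, ∀ i, |((⌊1 / ρ i * x⌋₊ : ℝ) / x) / ∑ l, (⌊1 / ρ l * x⌋₊ : ℝ) / x -
      (1 / ρ i) / ∑ l, 1 / ρ l| ≤ η := by
    rw [eventually_all]
    intro i
    have h4 := (Metric.tendsto_nhds.1 (h3 i)) η hη
    filter_upwards [h4] with x hx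
    rw [Real.dist_eq] at hx
    exact hx.le
  have e2 : ∀ᶠ x : ℝ in atTop, ∀ i, 0 < (⌊1 / ρ i * x⌋₊ : ℝ) / x := by
    rw [eventually_all]
    intro i
    exact (h1 i).eventually (lt_mem_nhds (by have := hρ i; positivity))
  have e3 : ∀ᶠ x : ℝ in atTop, ∀ i l, 0 ≤ (⌊1 / ρ l * x⌋₊ : ℝ) / x * ρ l - (1 - e) * ((⌊1 / ρ i * x⌋₊ : ℝ) / x * ρ i) := by
    rw [eventually_all]
    intro i
    rw [eventually_all]
    intro l
    have h5 : Tendsto (fun x : ℝ => (⌊1 / ρ l * x⌋₊ : ℝ) / x * ρ l - (1 - e) * ((⌊1 / ρ i * x⌋₊ : ℝ) / x * ρ i)) atTop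
        (nhds (1 / ρ l * ρ l - (1 - e) * (1 / ρ i * ρ i))) :=
      ((h1 l).mul_const _).sub (((h1 i).mul_const _).const_mul _)
    have h6 : 1 / ρ l * ρ l - (1 - e) * (1 / ρ i * ρ i) = e := by
      rw [one_div_mul_cancel (hρ l).ne', one_div_mul_cancel (hρ i).ne']
      ring
    rw [h6] at h5
    filter_upwards [h5.eventually (lt_mem_nhds he)] with x hx
    exact hx.le
  obtain ⟨x, hx, hx1, hx2, hx3⟩ := ((eventually_gt_atTop (0 : ℝ)).and (e1.and (e2.and e3))).exists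
  refine ⟨fun i => ⌊1 / ρ i * x⌋₊, fun i => ?_, fun i l => ?_, fun i => ?_⟩
  · have h7 := hx2 i
    rw [div_pos_iff_of_pos_right hx] at h7
    exact_mod_cast h7
  · have h7 := mul_nonneg hx.le (hx3 i l)
    have h8 : x * ((⌊1 / ρ l * x⌋₊ : ℝ) / x * ρ l - (1 - e) * ((⌊1 / ρ i * x⌋₊ : ℝ) / x * ρ i)) =
        (⌊1 / ρ l * x⌋₊ : ℝ) * ρ l - (1 - e) * ((⌊1 / ρ i * x⌋₊ : ℝ) * ρ i) := by
      field_simp
    rw [h8] at h7
    show (1 - e) * ((⌊1 / ρ i * x⌋₊ : ℝ) * ρ i) ≤ (⌊1 / ρ l * x⌋₊ : ℝ) * ρ l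
    linarith
  · have h7 := hx1 i
    rw [← Finset.sum_div, div_div_div_cancel_right₀ hx.ne'] at h7
    exact h7

/-- The sum of the orders of vanishing. -/
theorem P2_sum (F a : ℕ → ℕ) (g t : ℕ) (h : ∀ s, 1 ≤ s → s ≤ t → ∀ j, 1 ≤ j → j ≤ s * g → a (t - s) ≤ F j)
    {J : ℕ} (hJ : t * g ≤ J) : g * ∑ u ∈ Finset.range t, a u ≤ ∑ j ∈ Finset.Icc 1 J, F j := by
  have h1 : ∀ n, ∑ j ∈ Finset.Icc 1 n, F j = ∑ j ∈ Finset.range n, F (j + 1) := by
    intro n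
    induction n with
    | zero => simp
    | succ n ih => rw [Finset.sum_Icc_succ_top (by omega), Finset.sum_range_succ, ih]
  have h2 : ∀ s, s ≤ t → g * ∑ u ∈ Finset.range s, a (t - 1 - u) ≤ ∑ j ∈ Finset.range (s * g), F (j + 1) := by
    intro s
    induction s with
    | zero => simp
    | succ s ih =>
      intro hs
      have h3 := ih (by omega)
      rw [Finset.sum_range_succ, Nat.mul_add, Nat.succ_mul, Finset.sum_range_add]
      refine Nat.add_le_add h3 ?_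
      have h4 : ∑ _j ∈ Finset.range g, a (t - 1 - s) ≤ ∑ j ∈ Finset.range g, F (s * g + j + 1) := by
        refine Finset.sum_le_sum fun j hj => ?_
        have h5 := Finset.mem_range.1 hj
        have h6 := h (s + 1) (by omega) hs (s * g + j + 1) (by omega) (by rw [Nat.succ_mul]; omega)
        have h7 : t - 1 - s = t - (s + 1) := by omega
        rw [h7]
        exact h6
      rw [Finset.sum_const, Finset.card_range, smul_eq_mul] at h4
      exact h4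
  have h3 := h2 t le_rfl
  rw [Finset.sum_range_reflect a t, ← h1] at h3
  refine h3.trans (Finset.sum_le_sum_of_subset ?_)
  exact Finset.Icc_subset_Icc_right hJ

end UTG
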