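import Pool.Agent.Lib.MP_17a322_ntTA.Defs
import Pool.Agent.Lib.MP_17a322_ntTC.CDefs

/-!
Divisors which are proportional on the generic fibre: definition.
-/

set_option autoImplicit false

universe u

namespace UTG

open MvPolynomial UTA UTD UTC
open Pool.Agent.Lib.MP_17a322_nt.VA Pool.Agent.Lib.MP_17a322_nt.SL

/-- The divisors `D_i` are proportional to `ρ_i` on the generic fibre: for all `i`, `l` and `δ > 0` there are forms of
degree `u > 0` on the factor `l`, not zero on the fibre, which vanish to order at least `v` along `D_i`, with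
`v / u ≥ (1 - δ) ρ_l / ρ_i`. -/
def Par {K : Type u} [Field K] {N q m κ₀ : ℕ} (A : AV K N) (H : Fin κ₀ → Fm K N q m) (ρ : Fin q → ℝ) : Prop :=
  ∀ (L : Type u) [Field L] [IsAlgClosed L] [Algebra K L] (P : A.Pts L), Gen A P →
    ∀ δ : ℝ, 0 < δ → ∀ i l : Fin q, ∃ u v : ℕ, 0 < u ∧ (1 - δ) * u * ρ l ≤ v * ρ i ∧
      0 < ordD (fib H (A.x P)) (Pi.single l u) i v

end UTG
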