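import Pool.Agent.Lib.MP_17a322_ntTG.K10c
import Pool.Agent.Lib.MP_17a322_ntTG.Par
import Pool.Agent.Lib.MP_17a322_ntTG.P0
import Pool.Agent.Lib.MP_17a322_ntTG.P1
import Pool.Agent.Lib.MP_17a322_ntTG.P2
import Pool.Agent.Lib.MP_17a322_ntTD.S1
import Pool.Agent.Lib.MP_17a322_ntTD.S2

/-!
The constant `n + 1` for proportional divisors: the estimates with multidegrees which are inversely proportional to the
`ρ_i`, from the orders of vanishing of the products of sections of `u_l L_l - v_l D_i`.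
-/

set_option autoImplicit false

universe u

namespace UTG

open MvPolynomial UTA UTD UTC
open Pool.Agent.Lib.MP_17a322_nt.VA Pool.Agent.Lib.MP_17a322_nt.SL

/-- The numbers. -/
private theorem K10p_num {q n μ t a S g W : ℝ} (hq : 0 < q) (hn : 0 < n) {e η : ℝ} (hη : 0 < η) (he : 0 < e)
    (he1 : 8 * q * e ≤ η) (he2 : 2 * (n + 1) * e ≤ 1) (hμ : 1 ≤ μ) (ht : 1 ≤ t) (ha : 1 ≤ a)
    (hg : (1 - e) * (1 - e) * (q * μ) ≤ g) (hS : (1 / (n + 1) - e) * (t * a) ≤ S) (hW : g * S ≤ W) :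
    (q / (n + 1) - η) * (t * μ) ≤ (W - η / 2) / a := by
  have hn1 : 0 < n + 1 := by linarith
  have ha0 : 0 < a := by linarith
  have hμ0 : 0 < μ := by linarith
  have ht0 : 0 < t := by linarith
  obtain ⟨c, hc⟩ : ∃ c : ℝ, c = 1 / (n + 1) := ⟨_, rfl⟩
  have hcn : c * (n + 1) = 1 := by
    rw [hc]
    field_simp
  have hc0 : 0 < c := by
    rw [hc]
    positivity
  have hc1 : c ≤ 1 := by nlinarith
  have hec : 2 * e ≤ c := by
    have h1 := mul_le_mul_of_nonneg_left he2 hc0.le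
    have h2 : c * (2 * (n + 1) * e) = 2 * e * (c * (n + 1)) := by ring
    rw [h2, hcn] at h1
    linarith
  rw [← hc] at hS
  have hqc : q / (n + 1) = q * c := by
    rw [hc]
    ring
  rw [hqc, le_div_iff₀ ha0]
  have hS0 : 0 ≤ (c - e) * (t * a) := mul_nonneg (by linarith) (by positivity)
  have he3 : (1 - 2 * e) ≤ (1 - e) * (1 - e) := by nlinarith
  have h1 : (1 - 2 * e) * (q * μ) ≤ g := le_trans (mul_le_mul_of_nonneg_right he3 (by positivity)) hg
  have h0 : 0 ≤ (1 - 2 * e) * (q * μ) := mul_nonneg (by linarith) (by positivity)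
  have h2 : (1 - 2 * e) * (q * μ) * ((c - e) * (t * a)) ≤ W :=
    le_trans (mul_le_mul h1 hS hS0 (h0.trans h1)) hW
  have h3 : c - 3 * e ≤ (1 - 2 * e) * (c - e) := by nlinarith
  have hX : 1 ≤ μ * (t * a) := by nlinarith [mul_le_mul ht ha zero_le_one ht0.le]
  have h4 : (q * c - η / 2) * (μ * (t * a)) ≤ W := by
    refine le_trans ?_ h2
    have h5 : (1 - 2 * e) * (q * μ) * ((c - e) * (t * a)) = q * ((1 - 2 * e) * (c - e)) * (μ * (t * a)) := by ring
    rw [h5]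
    refine mul_le_mul_of_nonneg_right ?_ (by linarith)
    have h6 := mul_le_mul_of_nonneg_left h3 hq.le
    nlinarith
  nlinarith

/-- **K10p.** -/
theorem K10p_kappa {K : Type u} [Field K] [CharZero K] {N q m κ₀ n : ℕ} (hn : 0 < n) (hq : 0 < q) (A : AV K N)
    (H : Fin κ₀ → Fm K N q m) (hX : Vars A H ∅) (hD : Dim n A H) (ρ : Fin q → ℝ) (hρ : ∀ i, 0 < ρ i)
    (hP : Par A H ρ) {s₀ : ℕ} (Q : Fin s₀ → Finset (Fin q)) (hQ : ∀ k, Vars A H (Q k)) :
    ∃ (w : Fin q → ℝ) (κ : ℝ), (∀ i, 0 < w i) ∧ ∑ i, w i = 1 ∧ (q : ℝ) / (n + 1) ≤ κ ∧ ∀ η : ℝ, 0 < η →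
      ∃ (M : Fin q → ℕ) (r : ℕ) (ω : Fin q → ℝ), 0 < r ∧ (∀ i, |(M i : ℝ) / ∑ l, (M l : ℝ) - w i| ≤ η) ∧
        (∀ i, (κ - η) * M i ≤ ω i) ∧ Nonempty (EstV A H M r fun k i => if i ∈ Q k then ω i else 0) := by
  classical
  have hqR : (0 : ℝ) < q := by exact_mod_cast hq
  have hnR : (0 : ℝ) < n := by exact_mod_cast hn
  have hSρ : 0 < ∑ l, 1 / ρ l :=
    Finset.sum_pos (fun l _ => by have := hρ l; positivity) ⟨⟨0, hq⟩, Finset.mem_univ _⟩
  refine ⟨fun i => (1 / ρ i) / ∑ l, 1 / ρ l, q / (n + 1), fun i => by have := hρ i; positivity, ?_, le_rfl,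
    fun η hη => ?_⟩
  · rw [← Finset.sum_div, div_self hSρ.ne']
  obtain ⟨Ω, i1, i2, i3, P₀, hP₀⟩ := Pool.Agent.Lib.MP_17a322_nt.EF.T_gen A
  have hx : A.x P₀ ≠ 0 := A.x_ne P₀
  obtain ⟨h, hh, hI, hZ⟩ := C4_down H hX.hom hx
  have hpF : (fib H (A.x P₀)).IsPrime := hX.prime Ω P₀ hP₀
  have hp : (IΩ h Ω).IsPrime := by
    rw [hI]
    exact hpF
  have hk : (Ik h).IsPrime := B1_prime h hp
  have h0 : ∀ i, (X (i, 0) : MvPolynomial (Fin q × Fin (m + 1)) (kx K (A.x P₀))) ∉ Ik h := by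
    intro i hi
    have h1 := (B1_mem (Ω := Ω) h (X (i, 0))).2 hi
    rw [map_X, hI] at h1
    exact hX.ne Ω P₀ hP₀ i h1
  obtain ⟨C, hC⟩ := UTB.H5_up (n := n) hh Ω (by
    obtain ⟨d, hd, f, hf1, hf2⟩ := hD.le Ω P₀ hP₀
    exact ⟨d, hd, f, hf1, fun y hy => hf2 y ((hZ y).1 hy)⟩)
  have mono : ∀ (M : Fin q → ℕ) (i : Fin q), hf (Ik h) M ≤ hf (Ik h) (M + Pi.single i 1) := fun M i =>
    UTB.H1_step hk i (h0 i) M
  have hfe : ∀ M : Fin q → ℕ, UTA.hf (fib H (A.x P₀)) M = UTA.hf (Ik h) M := fun M => by rw [← hI, S1_hf]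
  -- the sections of `u_l L_l - v_l D_i`
  obtain ⟨e, he⟩ : ∃ e : ℝ, e = min (η / (8 * q)) (1 / (2 * (n + 1))) := ⟨_, rfl⟩
  have he0 : 0 < e := by
    rw [he]
    exact lt_min (by positivity) (by positivity)
  have he1 : 8 * q * e ≤ η := by
    have h1 : e ≤ η / (8 * q) := by
      rw [he]
      exact min_le_left _ _
    rw [le_div_iff₀ (by positivity)] at h1
    linarith
  have he2 : 2 * ((n : ℝ) + 1) * e ≤ 1 := by
    have h1 : e ≤ 1 / (2 * (n + 1)) := by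
      rw [he]
      exact min_le_right _ _
    rw [le_div_iff₀ (by positivity)] at h1
    linarith
  have he3 : e ≤ 1 := by nlinarith
  choose u v hu huv hord using hP Ω P₀ hP₀ e he0
  choose f hf1 hf2 hf3 using fun i l => P1_sec (hord i l)
  obtain ⟨m', hm1, hm2, hm3⟩ := P2_m hq ρ hρ e he0 η hη
  obtain ⟨U, hU⟩ : ∃ U : ℕ, U = ∏ i, ∏ l, u i l := ⟨_, rfl⟩
  have hU0 : 0 < U := by
    rw [hU]
    exact Finset.prod_pos fun i _ => Finset.prod_pos fun l _ => hu i l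
  have hUd : ∀ i l, u i l ∣ U := fun i l => by
    rw [hU]
    exact (Finset.dvd_prod_of_mem (fun l => u i l) (Finset.mem_univ l)).trans
      (Finset.dvd_prod_of_mem (fun i => ∏ l, u i l) (Finset.mem_univ i))
  choose c hc using fun i l => hUd i l
  obtain ⟨μ, hμ⟩ : ∃ μ : Fin q → ℕ, ∀ l, μ l = U * m' l := ⟨_, fun _ => rfl⟩
  have hμ1 : ∀ l, 1 ≤ μ l := fun l => by
    rw [hμ]
    exact Nat.mul_pos hU0 (hm1 l)
  -- the sums of the dimensions
  obtain ⟨a, ha⟩ : ∃ a : ℕ → ℕ, ∀ t, a t = hf (Ik h) fun l => t * μ l := ⟨_, fun _ => rfl⟩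
  obtain ⟨t, -, ht1, ht⟩ := P0_sum (fun t => (a t : ℝ)) (C * ((∑ l, μ l : ℕ) : ℝ) ^ n) n (Nat.cast_nonneg _)
    (fun t _ => by
      have h1 : 0 < a t := by
        rw [ha]
        exact hf_pos h hk h0 _
      exact_mod_cast h1)
    (fun t ht => by
      have h1 : a t ≤ hf (Ik h) fun _ => t * ∑ l, μ l := by
        rw [ha]
        exact UTQ.G_mono mono fun l => Nat.mul_le_mul_left t
          (Finset.single_le_sum (f := μ) (fun _ _ => Nat.zero_le _) (Finset.mem_univ l))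
      have h2 : 1 ≤ t * ∑ l, μ l := Nat.mul_pos ht
        (lt_of_lt_of_le (hμ1 ⟨0, hq⟩) (Finset.single_le_sum (f := μ) (fun _ _ => Nat.zero_le _) (Finset.mem_univ _)))
      have h3 := hC _ h2
      have h4 : ((a t : ℕ) : ℝ) ≤ ((hf (Ik h) fun _ => t * ∑ l, μ l : ℕ) : ℝ) := by exact_mod_cast h1
      refine h4.trans (h3.trans (le_of_eq ?_))
      rw [Nat.cast_mul, mul_pow]
      ring) e he0 0
  obtain ⟨M, hM⟩ : ∃ M : Fin q → ℕ, M = fun l => t * μ l := ⟨_, rfl⟩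
  obtain ⟨r, hr⟩ : ∃ r, r = hf (Ik h) M := ⟨_, rfl⟩
  have hrat : a t = r := by rw [ha, hr, hM]
  have hr0 : 0 < r := by
    rw [hr]
    exact hf_pos h hk h0 _
  obtain ⟨g, hg⟩ : ∃ g : Fin q → ℕ, ∀ i, g i = ∑ l, (c i l * m' l) * v i l := ⟨_, fun _ => rfl⟩
  obtain ⟨J, hJ⟩ : ∃ J : ℕ, J = ∑ i, t * g i := ⟨_, rfl⟩
  have hJi : ∀ i, t * g i ≤ J := fun i => by
    rw [hJ]
    exact Finset.single_le_sum (f := fun i => t * g i) (fun _ _ => Nat.zero_le _) (Finset.mem_univ i)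
  obtain ⟨W, hW⟩ : ∃ W : Fin q → ℕ, W = fun i => ∑ j ∈ Finset.Icc 1 J, ordD (Ik h) M i j := ⟨_, rfl⟩
  have hWg : ∀ i, g i * ∑ s ∈ Finset.range t, a s ≤ W i := by
    intro i
    rw [hW]
    refine P2_sum (fun j => ordD (Ik h) M i j) a (g i) t (fun s hs1 hs2 j _ hj => ?_) (hJi i)
    have h1 : UTA.hf (fib H (A.x P₀)) (fun l => (t - s) * μ l) ≤ ordD (fib H (A.x P₀)) M i j := by
      refine P1_ord hpF (hf1 i) (hf2 i) (hf3 i) (fun l => s * (c i l * m' l)) (fun l => ?_) ?_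
      · show M l = (t - s) * μ l + s * (c i l * m' l) * u i l
        have h2 : s * (c i l * m' l) * u i l = s * μ l := by
          rw [hμ, hc i l]
          ring
        rw [h2, ← Nat.add_mul, Nat.sub_add_cancel hs2, hM]
      · refine hj.trans (le_of_eq ?_)
        rw [hg, Finset.mul_sum]
        exact Finset.sum_congr rfl fun l _ => by ring
    rw [hfe, ← ha] at h1
    refine h1.trans ?_
    have h3 := S1_ord (Ω := Ω) h M i j
    rw [hI] at h3
    exact h3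
  have hgμ : ∀ i, (1 - e) * (1 - e) * ((q : ℝ) * μ i) ≤ g i := by
    intro i
    have h1 : ∀ l, (1 - e) * (1 - e) * (μ i : ℝ) ≤ ((c i l * m' l * v i l : ℕ) : ℝ) := by
      intro l
      refine le_of_mul_le_mul_right ?_ (hρ i)
      have h2 : (c i l : ℝ) * m' l * ((1 - e) * u i l * ρ l) ≤ (c i l : ℝ) * m' l * (v i l * ρ i) :=
        mul_le_mul_of_nonneg_left (huv i l) (by positivity)
      have h3 : (U : ℝ) * ((1 - e) * (m' i * ρ i)) ≤ U * (m' l * ρ l) :=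
        mul_le_mul_of_nonneg_left (hm2 i l) (Nat.cast_nonneg _)
      have h4 : (U : ℝ) = u i l * c i l := by
        exact_mod_cast hc i l
      have h5 : (c i l : ℝ) * m' l * ((1 - e) * u i l * ρ l) = (1 - e) * (U * (m' l * ρ l)) := by
        rw [h4]
        ring
      have h6 : (μ i : ℝ) = U * m' i := by
        rw [hμ, Nat.cast_mul]
      have h7 := mul_le_mul_of_nonneg_left h3 (by linarith : (0 : ℝ) ≤ 1 - e)
      rw [h5] at h2
      rw [h6, Nat.cast_mul, Nat.cast_mul]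
      calc (1 - e) * (1 - e) * ((U : ℝ) * m' i) * ρ i = (1 - e) * (U * ((1 - e) * (m' i * ρ i))) := by ring
        _ ≤ (1 - e) * (U * (m' l * ρ l)) := h7
        _ ≤ (c i l : ℝ) * m' l * (v i l * ρ i) := h2
        _ = (c i l : ℝ) * m' l * v i l * ρ i := by ring
    have h2 := Finset.sum_le_sum fun l (_ : l ∈ Finset.univ) => h1 l
    rw [Finset.sum_const, Finset.card_univ, Fintype.card_fin, nsmul_eq_mul, ← Nat.cast_sum, ← hg] at h2
    linarith
  have C₀ : ∀ k, ChainQ h (Q k) M W := by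
    intro k
    rw [hW]
    exact chainOrd h (Q k) M J
  obtain ⟨B, hB⟩ := K10c_grid Q W (η / 2) (by positivity)
  obtain ⟨β⟩ := V2_bas A H hX.hom P₀ hP₀ Q (fun k => (hQ k).reg Ω P₀ hP₀) h hh hI C₀ B
  rw [← hr] at β
  refine ⟨M, r, fun i => ((W i : ℝ) - η / 2) / r, hr0, fun i => ?_, fun i => ?_, V3_est hr0 β (η / 2) hB⟩
  · have hz : ((t : ℝ) * U) ≠ 0 := by positivity
    have h1 : (M i : ℝ) / ∑ l, (M l : ℝ) = (m' i : ℝ) / ∑ l, (m' l : ℝ) := by
      have h2 : ∀ l, (M l : ℝ) = (t : ℝ) * U * m' l := fun l => by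
        rw [hM]
        show ((t * μ l : ℕ) : ℝ) = _
        rw [hμ]
        push_cast
        ring
      rw [h2 i, Finset.sum_congr rfl fun l _ => h2 l, ← Finset.mul_sum, mul_div_mul_left _ _ hz]
    rw [h1]
    exact hm3 i
  · have h1 : (M i : ℝ) = t * μ i := by
      rw [hM]
      exact Nat.cast_mul _ _
    rw [h1]
    refine K10p_num (S := ∑ s ∈ Finset.range t, (a s : ℝ)) (g := g i) (e := e) hqR hnR hη he0 he1 he2
      (by exact_mod_cast hμ1 i) (by exact_mod_cast ht1) (by exact_mod_cast hr0) (hgμ i) ?_ ?_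
    · rw [← hrat]
      exact ht
    · exact_mod_cast hWg i

end UTG
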