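import Pool.Agent.Lib.MP_17a322_ntTG.F2
import Pool.Agent.Lib.MP_17a322_ntTG.K10p

/-!
T5 with the constant `2 n`, and `n + 1` for proportional divisors.
-/

set_option autoImplicit false

universe u

namespace UTG

open MvPolynomial UTA UTD UTC Height NumberField
open Pool.Agent.Lib.MP_17a322_nt.VA Pool.Agent.Lib.MP_17a322_nt.SL

/-- The constant `n + 1`. -/
theorem Kap_par {K : Type u} [Field K] [CharZero K] {N q m κ₀ n : ℕ} (hn : 0 < n) (hq : 0 < q) (A : AV K N)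
    (H : Fin κ₀ → Fm K N q m) (hX : Vars A H ∅) (hD : Dim n A H) {ρ : Fin q → ℝ} (hρ : ∀ i, 0 < ρ i)
    (hP : Par A H ρ) : Kap A H ((q : ℝ) / (n + 1)) False := by
  intro s₀ Q hQ
  obtain ⟨w, κ, hw, hw1, h1, hE⟩ := K10p_kappa hn hq A H hX hD ρ hρ hP Q hQ
  exact ⟨w, κ, hw, hw1, h1, False.elim, hE⟩

/-- **T5 with the two constants.** -/
theorem T5p_main {K : Type u} [Field K] [NumberField K] {N q m κ₀ n a b c : ℕ} (hn : 0 < n) (hq : 0 < q) (hb : 0 < b)
    (hba : b ≤ a) (A : AV K N) (H : Fin κ₀ → Fm K N q m) (hX : Vars A H ∅) (hD : Dim n A H) (hC : Cov a b A H)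
    (hc : c = 2 * n ∨ c = n + 1 ∧ ∃ ρ : Fin q → ℝ, (∀ i, 0 < ρ i) ∧ Par A H ρ) :
    ∃ (w : Fin q → ℝ) (θ : ℝ), (∀ i, 0 < w i) ∧ ∑ i, w i = 1 ∧ 0 < θ ∧ θ ≤ c * a / (q * b) ∧
      (∀ (S : Finset (FinitePlace K)) (ε : ℝ), 0 < ε → ∃ (C : ℝ) (F : Fm K N q m), Exc A H F ∧
        ∀ (P : A.Pts K) (y : Fin q → Fin (m + 1) → K), InX H (A.x P) y → val F (A.x P) y ≠ 0 →
          (∀ i, y i 0 ≠ 0) ∧
          ∑ i, w i * prox S (y i) ≤ θ * ∑ i, w i * logHeight (y i) +
            ε * (∑ i, logHeight (y i) + logHeight (A.x P)) + C) ∧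
      (c * a < q * b ∨ 2 ≤ n ∧ 2 * n * a ≤ q * b → θ < 1 ∧
        ∀ p : Fin (N + 1) → MvPolynomial (Fin q × Fin (m + 1)) K, IsMap A H p →
        ∀ S : Finset (FinitePlace K), ∃ F : Fm K N q m, Exc A H F ∧
          {z : A.Pts K × (Fin q → Fin (m + 1) → K) | InX H (A.x z.1) z.2 ∧ (∀ i, z.2 i 0 = 1) ∧
            (∀ v ∉ S, ∀ i l, v (z.2 i l) ≤ 1) ∧ val F (A.x z.1) z.2 ≠ 0}.Finite) := by
  have ha : 0 < a := lt_of_lt_of_le hb hba
  have haR : (0 : ℝ) < a := by exact_mod_cast ha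
  have hbR : (0 : ℝ) < b := by exact_mod_cast hb
  have hqR : (0 : ℝ) < q := by exact_mod_cast hq
  have hnR : (0 : ℝ) < n := by exact_mod_cast hn
  rcases hc with rfl | ⟨rfl, ρ, hρ, hP⟩
  · obtain ⟨w, θ, h1, h2, h3, h4, h5, h6⟩ := main_of_kappa hb hba A H hX hC (c := (q : ℝ) / (2 * n))
      (by positivity) (Kap_two hn hq A H hX hD)
    refine ⟨w, θ, h1, h2, h3, h4.trans (le_of_eq ?_), h5, fun h => h6 ?_⟩
    · push_cast
      field_simp
    · rcases h with h | ⟨h, h'⟩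
      · left
        have h7 : (2 * n * a : ℝ) < q * b := by exact_mod_cast h
        rw [mul_div_assoc', lt_div_iff₀ (by positivity)]
        linarith
      · right
        refine ⟨⟨h, ?_⟩, ?_⟩
        · have h7 : 2 * n * b ≤ q * b := (Nat.mul_le_mul_left _ hba).trans h'
          exact Nat.le_of_mul_le_mul_right h7 hb
        · have h7 : (2 * n * a : ℝ) ≤ q * b := by exact_mod_cast h'
          rw [mul_div_assoc', le_div_iff₀ (by positivity)]
          linarith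
  · obtain ⟨w, θ, h1, h2, h3, h4, h5, h6⟩ := main_of_kappa hb hba A H hX hC (c := (q : ℝ) / (n + 1))
      (by positivity) (Kap_par hn hq A H hX hD hρ hP)
    refine ⟨w, θ, h1, h2, h3, h4.trans (le_of_eq ?_), h5, fun h => h6 (Or.inl ?_)⟩
    · push_cast
      field_simp
    · have h8 : (n + 1) * a < q * b := by
        rcases h with h | ⟨h, h'⟩
        · exact h
        · refine lt_of_lt_of_le ?_ h'
          exact Nat.mul_lt_mul_of_pos_right (by omega) ha
      have h7 : ((n : ℝ) + 1) * a < q * b := by exact_mod_cast h8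
      rw [mul_div_assoc', lt_div_iff₀ (by positivity)]
      linarith

end UTG
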