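import Pool.Agent.Lib.MP_17a322_ntTG.Par
import Pool.Agent.Lib.MP_17a322_ntTA.B3

/-!
The divisors `D_i` are proportional on the generic fibre: elementary form.
-/

set_option autoImplicit false

universe u

namespace UTG

open MvPolynomial UTA UTD UTC
open Pool.Agent.Lib.MP_17a322_nt.VA Pool.Agent.Lib.MP_17a322_nt.SL

/-- One form which vanishes to order at least `v` along `D_i`. -/
theorem F4_ord {L : Type u} [Field L] {q m : ℕ} {I : Ideal (MvPolynomial (Fin q × Fin (m + 1)) L)} {M : Fin q → ℕ}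
    {i : Fin q} {v : ℕ} {f : MvPolynomial (Fin q × Fin (m + 1)) L} (hf : f ∈ MH L m M) (hI : f ∉ I)
    (hs : f ∈ sat (I ⊔ Ideal.span {X (i, 0) ^ v})) : 0 < ordD I M i v := by
  have hfd : FiniteDimensional L (MH L m M) := B3_fd M
  have hfd2 : FiniteDimensional L ↥(((MH L m M) ⊓ (sat (I ⊔ Ideal.span {X (i, 0) ^ v})).restrictScalars L).map
      (Ideal.Quotient.mkₐ L I).toLinearMap) := by
    have h1 : FiniteDimensional L ↥((MH L m M) ⊓ (sat (I ⊔ Ideal.span {X (i, 0) ^ v})).restrictScalars L) :=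
      Submodule.finiteDimensional_of_le (inf_le_left)
    exact Module.Finite.map _ _
  unfold ordD
  rw [Module.finrank_pos_iff]
  refine ⟨⟨(Ideal.Quotient.mkₐ L I).toLinearMap f, ⟨f, ⟨hf, hs⟩, rfl⟩⟩, 0, fun h => hI ?_⟩
  have h2 := congrArg Subtype.val h
  exact Ideal.Quotient.eq_zero_iff_mem.1 h2

/-- The elementary form of `Par`. -/
theorem Par_of {K : Type u} [Field K] {N q m κ₀ : ℕ} {A : AV K N} {H : Fin κ₀ → Fm K N q m} {ρ : Fin q → ℝ}
    (h : ∀ (L : Type u) [Field L] [IsAlgClosed L] [Algebra K L] (P : A.Pts L), Gen A P →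
      ∀ δ : ℝ, 0 < δ → ∀ i l : Fin q, ∃ u v : ℕ, 0 < u ∧ (1 - δ) * u * ρ l ≤ v * ρ i ∧
        ∃ f ∈ MH L m (Pi.single l u), f ∉ fib H (A.x P) ∧ f ∈ sat (fib H (A.x P) ⊔ Ideal.span {X (i, 0) ^ v})) :
    Par A H ρ := by
  intro L _ _ _ P hP δ hδ i l
  obtain ⟨u, v, hu, huv, f, hf, hI, hs⟩ := h L P hP δ hδ i l
  exact ⟨u, v, hu, huv, F4_ord hf hI hs⟩

end UTG
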